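import Pool.Agent.Lib_helper50.A55.Defs

/-!
# MP_a55cb8: interface of the probability layer (DRAFT by helper50; architect: helper78)

Everything is about uniform bits.  `u` is a large parameter (a power of `log n`):
`L = u^10`, `θ = u^(-5)`, `θ₂ = u^(-3)`; hypotheses like `C lg/δ ≤ u` are to be fixed by helper78.
-/

open Matrix Finset

namespace A55

/-- row `i` of `A` has rate `4^(-e i) ≥ (L/4) rho` or `1` -/
def RatesOK {n : ℕ} (A : Matrix (Fin n) (Fin n) ℝ) (l L : ℝ) (e : Fin n → ℕ) : Prop :=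
  ∀ i, e i = 0 ∨ L / 4 * rho A l i ≤ (1 / 4) ^ e i

/-- the columns which `S` might make bad carry little mass (property needed for the next sample,
which is a sample of the columns with scores at the ridge `l' ≤ l`) -/
def KillOK {a : Type*} [Fintype a] {n : ℕ} (S : Matrix a (Fin n) ℝ)
    (A : Matrix (Fin n) (Fin n) ℝ) (l l' L θ : ℝ) : Prop :=
  ∀ B : Finset (Fin n), (∀ c ∈ B, L / 4 * rho Aᵀ l' c < 1 ∧
      θ * l * (L / 4 * rho Aᵀ l' c) < sq (S *ᵥ (noiseM A l).col c)) →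
    ∀ x : Fin n → ℝ, ∑ c ∈ B, (Aᵀ *ᵥ x) c ^ 2 ≤ 1 / 16 * (sq (Aᵀ *ᵥ x) + l' * sq x)

/-- THE SAMPLING STEP (row form; the column form is this for `Aᵀ`).  `l` = ridge of the level,
`lN ≥ l` = ridge of the noise condition, `l' ≤ l` = ridge of the next sample of the other side,
`T` = the current sample of the other side. -/
def SampleStep : Prop :=
  ∀ (n c B : ℕ) (A : Matrix (Fin n) (Fin n) ℝ) (T : Matrix (Fin n) (Fin c) ℝ)
    (l lN l' δ u : ℝ) (e : Fin n → ℕ) (bad : Fin n → Bool) (φ : Fin 8 → Fin n → ℝ),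
    0 < l' → l' ≤ l → l ≤ lN → 0 < δ → δ ≤ 1 → 10 ^ 8 * (Nat.log2 n + 2) / δ ≤ u →
    RatesOK A l (u ^ 10) e → (∀ i, 2 * e i ≤ B) →
    (∀ x, ∑ i ∈ univ.filter (fun i => bad i = true), (A *ᵥ x) i ^ 2 ≤
      1 / 16 * (sq (A *ᵥ x) + l * sq x)) →
    (∀ i, bad i = false → e i ≠ 0 →
      sq (Tᵀ *ᵥ (noiseM A lN i)) ≤ u⁻¹ ^ 3 * lN * (1 / 4) ^ e i) →
    (∀ x, sq (Tᵀ *ᵥ ((noiseM A lN)ᵀ *ᵥ x)) ≤ lN * sq x) →
    (∀ r i, 0 ≤ φ r i) →
    frac (fun w : Fin n → Fin B → Bool =>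
      ¬ (Valid (diagonal fun i => wt (e i) (bad i) (w i)) A l ∧
         Noise (diagonal fun i => wt (e i) (bad i) (w i)) A T lN 2 ∧
         KillOK (diagonal fun i => wt (e i) (bad i) (w i)) A l l' (u ^ 10) (u⁻¹ ^ 5) ∧
         ∀ r, ∑ i, (if wt (e i) (bad i) (w i) = 0 then 0 else φ r i) ≤
           (1 / δ) * ∑ i, (1 / 4) ^ e i * φ r i)) ≤ 20 * δ

/-- MATRIX CONCENTRATION for independent multiples of fixed positive matrices. -/
def MC : Prop :=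
  ∀ (n : ℕ) (ι : Type) [Fintype ι] [DecidableEq ι] (Ω : ι → Type) [∀ i, Fintype (Ω i)] [∀ i, Nonempty (Ω i)]
    (f : ∀ i, Ω i → ℝ) (Z : ι → Matrix (Fin n) (Fin n) ℝ) (β μ τ δ : ℝ),
    (∀ i, (Z i).PosSemidef) → (∀ i ω, 0 ≤ f i ω) →
    (∀ i, ∑ ω, f i ω = Fintype.card (Ω i)) →
    (∀ i, (∀ ω, f i ω = 1) ∨ ∀ ω x, f i ω * qf (Z i) x ≤ β * sq x) →
    (∀ x, ∑ i, qf (Z i) x ≤ μ * sq x) → 0 < τ → 0 < δ → δ ≤ 1 → 0 ≤ β → 0 ≤ μ →
    10 ^ 4 * β * (μ + τ) * (Nat.log2 n + 2) ≤ δ ^ 2 * τ ^ 2 →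
    frac (fun ω : (i : ι) → Ω i =>
      ¬ ∀ x, |∑ i, (f i (ω i) - 1) * qf (Z i) x| ≤ τ * sq x) ≤ δ

/-- JOHNSON-LINDENSTRAUSS with signs (sum over `M` copies, no normalisation). -/
def JL : Prop :=
  ∀ (n d M : ℕ) (V : Matrix (Fin n) (Fin d) ℝ) (δ : ℝ), 0 < δ → δ ≤ 1 →
    50 * (Nat.log2 n + 2 + 1 / δ) ≤ M →
    frac (fun g : Fin M → Fin d → Bool =>
      ¬ ∀ i, sq (V i) / 2 ≤ ∑ r, (∑ j, V i j * sgn (g r j)) ^ 2 ∧
        ∑ r, (∑ j, V i j * sgn (g r j)) ^ 2 ≤ (M : ℝ) ^ 3 * sq (V i)) ≤ δ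

/-- the CountSketch stack with `J` copies and `2^b` buckets: row `(t, β)`, column `i` -/
def sk {n J b : ℕ} (w : Fin J → Fin n → Bool × (Fin b → Bool)) :
    Matrix (Fin J × (Fin b → Bool)) (Fin n) ℝ :=
  fun p i => if (w p.1 i).2 = p.2 then sgn (w p.1 i).1 else 0

/-- EMBEDDING of a fixed subspace by a CountSketch stack. -/
def Embed : Prop :=
  ∀ (n J b d : ℕ) (U : Submodule ℝ (Fin n → ℝ)) (δ : ℝ), 0 < δ → δ ≤ 1 →
    Module.finrank ℝ U ≤ d → d < 2 ^ J → 16 * (d + 1) * J / δ ≤ 2 ^ b →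
    frac (fun w : Fin J → Fin n → Bool × (Fin b → Bool) =>
      ¬ ∀ x ∈ U, sq x ≤ (16 * (n + 1 : ℝ)) ^ (J + 1) * sq (sk w *ᵥ x)) ≤ δ

/-- SEQUENTIAL UNION BOUND: a Markov chain of `I` steps, step `i` reads `len i` fresh bits. -/
def Seq : Prop :=
  ∀ (X : Type) (I m : ℕ) (len : ℕ → ℕ) (f : ℕ → X → (ℕ → Bool) → X) (Good : ℕ → X → Prop)
    (x0 : X) (δ : ℝ), Good 0 x0 →
    (∀ i x w w', (∀ t < len i, w t = w' t) → f i x w = f i x w') →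
    (∀ i < I, ∀ x, Good i x →
      frac (fun w : Fin (len i) → Bool =>
        ¬ Good (i + 1) (f i x fun t => if h : t < len i then w ⟨t, h⟩ else false)) ≤ δ) →
    ∑ i ∈ range I, len i ≤ m →
    frac (fun r : Fin m → Bool => ¬ Good I
      (Nat.rec x0 (fun i x => f i x fun t =>
        if h : (∑ i' ∈ range i, len i') + t < m then r ⟨_, h⟩ else false) I)) ≤ I * δ

end A55
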