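import Pool.Agent.Lib_helper50.A55.Prog
import Pool.Agent.Lib_helper50.A55.ProbIface

/-!
# MP_a55cb8: the algorithm (helper50)

`Lib mm` collects the program blocks; the algorithm is a composition of its functions.
-/

open Matrix Finset

namespace A55

/-! ## the library of program blocks -/

/-- the sign and the hash bits of copy `t`, index `i` -/
def skBits (n J b : ℕ) (bits : ℕ → ℕ) : Fin J → Fin n → Bool × (Fin b → Bool) :=
  fun t i => (decide (bits ((t * n + i) * (b + 1)) = 1),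
    fun s => decide (bits ((t * n + i) * (b + 1) + 1 + s) = 1))

/-- a sketch as a sparse list with `J n` entries, entry `t n + i` in column `i` -/
def SkOK (n J m : ℕ) (x : CooT.den) : Prop :=
  x.1 = J * n ∧ ∀ t < J, ∀ i < n, x.2.2.1 (t * n + i) = i ∧ x.2.1 (t * n + i) < m

/-- number of list entries outside the heavy blocks, plus the dimensions -/
def opRest (x : OpT.den) (fr fc : ℕ → ℕ) : ℕ :=
  opR x + opC x +
    ((range x.2.2.1.1.1).filter fun e => fr (x.2.2.1.1.2.1 e) = 0 ∨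
      fc (x.2.2.1.1.2.2.1 e) = 0).card +
    ((range x.2.2.1.2.1).filter fun e => fr (x.2.2.1.2.2.1 e) = 0).card +
    ((range x.2.2.2.1.1).filter fun e => fc (x.2.2.2.1.2.2.1 e) = 0).card

/-- dimensions of the heavy blocks are at most `h` -/
def opHeavy (x : OpT.den) (fr fc : ℕ → ℕ) (h : ℕ) : Prop :=
  ((range (opR x)).filter fun p => fr p ≠ 0).card ≤ h ∧
    ((range (opC x)).filter fun p => fc p ≠ 0).card ≤ h ∧ x.2.1.1 ≤ h ∧ x.2.1.2 ≤ h

/-- the program blocks -/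
structure Lib (mm : ℕ → ℕ) where
  dot : (Ty.prod .nat (.prod VecT VecT)).den → ℝ
  dot_oc : OC (.prod .nat (.prod VecT VecT)) .real (fun _ => True) dot (fun x => x.1)
  dot_eq : ∀ n x y, dot (n, (x, y)) = toV n x ⬝ᵥ toV n y
  lin : (Ty.prod .nat (.prod (.prod .real VecT) (.prod .real VecT))).den → VecT.den
  lin_oc : OC (.prod .nat (.prod (.prod .real VecT) (.prod .real VecT))) VecT (fun _ => True) lin
    (fun x => x.1)
  lin_eq : ∀ n r x r' y, toV n (lin (n, ((r, x), (r', y)))) = r • toV n x + r' • toV n y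
  mvC : (Ty.prod .nat (.prod CooT VecT)).den → VecT.den
  mvC_oc : OC (.prod .nat (.prod CooT VecT)) VecT (fun _ => True) mvC (fun x => x.1 + x.2.1.1)
  mvC_eq : ∀ a c x v, CooOK a c x → toV a (mvC (a, (x, v))) = toM a c (cooA x) *ᵥ toV c v
  mvD : (Ty.prod (.prod .nat .nat) (.prod MatT VecT)).den → VecT.den
  mvD_oc : OC (.prod (.prod .nat .nat) (.prod MatT VecT)) VecT (fun _ => True) mvD
    (fun x => (x.1.1 + 1) * (x.1.2 + 1))
  mvD_eq : ∀ a c X v, toV a (mvD ((a, c), (X, v))) = toM a c X *ᵥ toV c v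
  mv : (Ty.prod FOpT VecT).den → VecT.den
  mv_oc : OC (.prod FOpT VecT) VecT (fun _ => True) mv (fun x => opSize x.1.2)
  mv_eq : ∀ x v, OpOK x.2 → toV (fopR x) (mv (x, v)) = fopM x *ᵥ toV (fopC x) v
  sk : (Ty.prod .nat (.prod .nat (.prod .nat NArr))).den → CooT.den
  sk_oc : OC (.prod .nat (.prod .nat (.prod .nat NArr))) CooT (fun _ => True) sk
    (fun x => (x.2.1 + 1) * (x.1 + 1) * (x.2.2.1 + 1) + 2 ^ x.2.2.1)
  sk_eq : ∀ n J b bits, SkOK n J (J * 2 ^ b) (sk (n, (J, (b, bits)))) ∧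
      ∀ x : Fin n → ℝ, sq (toM (J * 2 ^ b) n (cooA (sk (n, (J, (b, bits))))) *ᵥ x) =
        sq (A55.sk (skBits n J b bits) *ᵥ x)
  mkU : (Ty.prod (.prod .nat (.prod .nat .nat)) (.prod CooT CooT)).den → CooT.den
  mkU_oc : OC (.prod (.prod .nat (.prod .nat .nat)) (.prod CooT CooT)) CooT (fun _ => True) mkU
    (fun x => (x.1.2.1 + 1) * (x.2.1.1 + 1) + x.1.1)
  mkU_eq : ∀ n J m A S, CooOK n n A → SkOK n J m S →
      CooOK n m (mkU ((n, (J, m)), (A, S))) ∧
      (∀ i < n, ∀ p < m, cooA (mkU ((n, (J, m)), (A, S))) i p =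
        ∑ c ∈ range n, cooA A i c * cooA S p c) ∧
      ∀ i < n, rowCnt (mkU ((n, (J, m)), (A, S))) i ≤ min (J * rowCnt A i) m
  mkOp : (Ty.prod OpT (.prod SDT SDT)).den → OpT.den
  mkOp_oc : OC (.prod OpT (.prod SDT SDT)) OpT (fun _ => True) mkOp
      (fun x => x.1.2.2.1.1.1 + x.1.2.2.1.2.1 + x.1.2.2.2.1.1)
  mkOp_eq : ∀ E S T n, OpOK E → E.1 = (n, n) → SDOK n S → SDOK n T →
      OpOK (mkOp (E, (S, T))) ∧ (mkOp (E, (S, T))).1 = (S.1, T.1) ∧
      (mkOp (E, (S, T))).2.1 = E.2.1 ∧ (mkOp (E, (S, T))).2.2.2.2 = E.2.2.2.2 ∧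
      (∀ p < S.1, ∀ r < T.1, opA (mkOp (E, (S, T))) p r =
        ∑ i ∈ range n, ∑ c ∈ range n, sdA S p i * opA E i c * sdA T r c) ∧
      (∀ p < S.1, ∀ i < n, S.2.1 i = p + 1 →
        rowCnt (mkOp (E, (S, T))).2.2.1.2 p = rowCnt E.2.2.1.2 i ∧
        rowCnt (mkOp (E, (S, T))).2.2.1.1 p = ((range E.2.2.1.1.1).filter fun e =>
          E.2.2.1.1.2.1 e = i ∧ T.2.1 (E.2.2.1.1.2.2.1 e) ≠ 0).card) ∧
      (∀ r < T.1, ∀ c < n, T.2.1 c = r + 1 →
        colCnt (mkOp (E, (S, T))).2.2.2.1 r = colCnt E.2.2.2.1 c ∧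
        colCnt (mkOp (E, (S, T))).2.2.1.1 r = ((range E.2.2.1.1.1).filter fun e =>
          E.2.2.1.1.2.2.1 e = c ∧ S.2.1 (E.2.2.1.1.2.1 e) ≠ 0).card)
  rates : (Ty.prod (.prod .nat .nat) (.prod .real VecT)).den → NArr.den
  rates_oc : OC (.prod (.prod .nat .nat) (.prod .real VecT)) NArr (fun _ => True) rates
    (fun x => (x.1.1 + 1) * (x.1.2 + 1))
  rates_eq : ∀ n emax L est, ∀ i < n, rates ((n, emax), (L, est)) i ≤ emax ∧
      (rates ((n, emax), (L, est)) i = 0 ∨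
        L * est i ≤ (1 / 4) ^ (rates ((n, emax), (L, est)) i)) ∧
      (rates ((n, emax), (L, est)) i = emax ∨
        (1 / 4) ^ (rates ((n, emax), (L, est)) i + 1) < L * est i)
  bad : (Ty.prod (.prod .nat .real) (.prod NArr VecT)).den → NArr.den
  bad_oc : OC (.prod (.prod .nat .real) (.prod NArr VecT)) NArr (fun _ => True) bad
    (fun x => ∑ i ∈ range x.1.1, (x.2.1 i + 1))
  bad_eq : ∀ n thr e est, ∀ i < n, (bad ((n, thr), (e, est)) i = 1 ↔
        (e i ≠ 0 ∧ thr * (1 / 4) ^ e i < est i)) ∧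
      (bad ((n, thr), (e, est)) i = 0 ∨ bad ((n, thr), (e, est)) i = 1)
  smp : (Ty.prod (.prod .nat (.prod .nat .nat)) (.prod NArr (.prod NArr NArr))).den → SDT.den
  smp_oc : OC (.prod (.prod .nat (.prod .nat .nat)) (.prod NArr (.prod NArr NArr))) SDT
    (fun _ => True) smp (fun x => ∑ i ∈ range x.1.1, (x.2.1 i + 1))
  smp_eq : ∀ n B h e bad bits, (∀ i < n, 2 * e i ≤ B) →
      SDOK n (smp ((n, (B, h)), (e, (bad, bits)))) ∧
      (∀ i : Fin n, sdW (smp ((n, (B, h)), (e, (bad, bits)))) i =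
        wt (e i) (decide (bad i = 1)) (fun t : Fin B => decide (bits (i * B + t) = 1))) ∧
      ∀ i < n, ∀ p, (smp ((n, (B, h)), (e, (bad, bits)))).2.1 i = p + 1 →
        (smp ((n, (B, h)), (e, (bad, bits)))).2.2.2 p = if e i < h then 1 else 0
  smp_ne : ∀ n B h e bad bits, (∀ i < n, 2 * e i ≤ B) → ∀ i < n,
      (smp ((n, (B, h)), (e, (bad, bits)))).2.1 i ≠ 0 →
      sdW (smp ((n, (B, h)), (e, (bad, bits)))) i ≠ 0
  sgns : (Ty.prod (.prod .nat .nat) NArr).den → (Ty.arr VecT).den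
  sgns_oc : OC (.prod (.prod .nat .nat) NArr) (.arr VecT) (fun _ => True) sgns
    (fun x => (x.1.1 + 1) * (x.1.2 + 1))
  sgns_eq : ∀ M d bits, ∀ r < M, ∀ j < d,
      sgns ((M, d), bits) r j = sgn (decide (bits (r * d + j) = 1))
  C : ℕ
  C_pos : 1 ≤ C
  score : (Ty.prod .nat (.prod ChT (.prod .nat (.prod (.arr VecT) (.arr VecT))))).den → VecT.den
  score_cp : Cp (.prod .nat (.prod ChT (.prod .nat (.prod (.arr VecT) (.arr VecT))))) VecT
      (fun _ _ => True) score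
      (fun x => C * (x.2.2.1 + 1) * (chCost C x.2.1 x.1 + opSize (x.2.1.1 x.1).2))
  score_eq : ∀ R Θ M s1 s2, ChOK Θ R → ∀ i : Fin (fopR (Θ.1 R)),
      score (R, (Θ, (M, (s1, s2)))) i =
        ∑ r ∈ range M, (((chainOf Θ).X R *ᵥ ((chainOf Θ).g R *ᵥ (((chainOf Θ).X R)ᵀ *ᵥ
              toV (fopR (Θ.1 R)) (s1 r)))) i ^ 2 +
          Θ.2.1.1 R * ((chainOf Θ).X R *ᵥ ((chainOf Θ).g R *ᵥ
              toV (chD Θ R) (s2 r))) i ^ 2)
  clean : (Ty.prod .nat (.prod ChT (.prod .nat (.prod VecT (.arr VecT))))).den → VecT.den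
  clean_cp : Cp (.prod .nat (.prod ChT (.prod .nat (.prod VecT (.arr VecT))))) VecT
      (fun _ _ => True) clean
      (fun x => C * (x.2.2.1 + 1) * (chCost C x.2.1 x.1 + opSize (x.2.1.1 x.1).2))
  clean_eq : ∀ R Θ M w s, ChOK Θ R → ∀ i : Fin (chD Θ R),
      clean (R, (Θ, (M, (w, s)))) i =
        ∑ r ∈ range M, (Θ.2.1.1 R * ((chainOf Θ).g R *ᵥ (((chainOf Θ).X R)ᵀ *ᵥ
          toV (fopR (Θ.1 R)) (fun p => w p * s r p))) i) ^ 2
  outer : (Ty.prod (.prod .nat .nat) (.prod (.prod ChT .real) VecT)).den → VecT.den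
  outer_cp : Cp (.prod (.prod .nat .nat) (.prod (.prod ChT .real) VecT)) VecT
      (fun _ _ => True) outer
      (fun x => C * (x.1.2 + 1) * (chCost C x.2.1.1 x.1.1 + opSize (x.2.1.1.1 x.1.1).2))
  outer_eq : ∀ R m Θ α b, ChOK Θ R → ∀ X g, X = (chainOf Θ).X R → g = (chainOf Θ).g R →
      toV (chD Θ R) (outer ((R, m), ((Θ, α), b))) =
        g *ᵥ (Xᵀ *ᵥ (cheb (X * g * Xᵀ) 1 α 2 m *ᵥ toV (fopR (Θ.1 R)) b))
  gamma : (Ty.prod (.prod .nat (.prod .nat .nat))
      (.prod (.prod .nat .nat) (.prod CooT CooT))).den → MatT.den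
  gamma_oc : OC (.prod (.prod .nat (.prod .nat .nat)) (.prod (.prod .nat .nat) (.prod CooT CooT)))
      MatT (fun x => x.2.1.1 ≤ 2 ^ x.1.2.1 ∧ x.2.1.2 ≤ 2 ^ x.1.2.1) gamma
      (fun x => (x.1.2.1 + 1) * mm (2 ^ x.1.2.1) + x.1.1 + (x.1.2.2 + 1) * (x.2.2.1.1 + 1))
  gamma_eq : ∀ n s J m1 m2 U S, m1 ≤ 2 ^ s → m2 ≤ 2 ^ s → CooOK n m1 U → SkOK n J m2 S →
      ∃ Hm : Matrix (Fin m1) (Fin m1) ℝ, ∀ Z : Matrix (Fin m2) (Fin m1) ℝ,
        Z = toM m2 n (cooA S) * toM n m1 (cooA U) → Hmᵀ = Hm ∧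
        (Zᵀ * Z) * Hm * (Zᵀ * Z) = Zᵀ * Z ∧
        toM m1 m2 (gamma ((n, (s, J)), ((m1, m2), (U, S)))) = Hm * Zᵀ
  base : (Ty.prod (.prod (.prod .nat .nat) (.prod .nat .nat))
      (.prod .real (.prod (.prod OpT (.prod NArr NArr)) CooT))).den → BaseT.den
  base_oc : OC (.prod (.prod (.prod .nat .nat) (.prod .nat .nat))
      (.prod .real (.prod (.prod OpT (.prod NArr NArr)) CooT))) BaseT
      (fun x => opHeavy x.2.2.1.1 x.2.2.1.2.1 x.2.2.1.2.2 x.1.1.1 ∧ x.1.1.1 ≤ 2 ^ x.1.1.2 ∧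
        x.1.2.1 ≤ 2 ^ x.1.1.2) base
      (fun x => (x.1.2.2 + 1) * (mm (2 ^ x.1.1.2) +
          (x.1.2.1 + 1) * (opRest x.2.2.1.1 x.2.2.1.2.1 x.2.2.1.2.2 + x.1.1.1 + 1) +
          opSize x.2.2.1.1) +
        (x.1.1.2 + 1) * mm (2 ^ x.1.1.2) + (x.1.2.1 + 1) * (x.2.2.2.1 + 1))
  base_eq : ∀ h s k q lam x fr fc Om, opHeavy x fr fc h → h ≤ 2 ^ s → k ≤ 2 ^ s → OpOK x →
      CooOK (opC x) k Om → 0 ≤ lam →
      ∀ (X : Matrix (Fin (opR x)) (Fin (opC x)) ℝ) (Y : Matrix (Fin (opC x)) (Fin k) ℝ)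
        (y : BaseT.den), X = toM _ _ (opA x) →
        Y = (Xᵀ * X) ^ q * toM (opC x) k (cooA Om) →
        y = base (((h, s), (k, q)), (lam, ((x, (fr, fc)), Om))) →
        y.1 = (q, k) ∧ y.2.1 = Om ∧
        (toM k k y.2.2.1)ᵀ = toM k k y.2.2.1 ∧ (toM k k y.2.2.2)ᵀ = toM k k y.2.2.2 ∧
        (Yᵀ * Y) * toM k k y.2.2.1 * (Yᵀ * Y) = Yᵀ * Y ∧
        (Yᵀ * gram X lam * Y) * toM k k y.2.2.2 * (Yᵀ * gram X lam * Y) =
          Yᵀ * gram X lam * Y
  base_shape : ∀ h s k q lam x fr fc Om,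
    (base (((h, s), (k, q)), (lam, ((x, (fr, fc)), Om)))).1 = (q, k) ∧
    (base (((h, s), (k, q)), (lam, ((x, (fr, fc)), Om)))).2.1 = Om

/-! ## global data

Natural parameters `P i`: `0` n, `1` k, `2` N, `3` κ, `4` q, `5` l, `6` b₁, `7` m₁ = l 2^b₁,
`8` b₂, `9` m₂ = l 2^b₂, `10` b₃, `11` k₃ = l 2^b₃, `12` s (2^s bounds m₁, m₂, k₃, hcap),
`13` M (copies of the sign sketches), `14` K, `15` number of levels, `16` degree of the links of
ratio 1, `17` degree of the links of ratio K, `18` number of power steps of the base, `19` degree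
of the outer iteration, `20` Bd (budget factor), `21` b (length of the chain), `22` h (threshold
of heavy indices), `23` W (length of a window of bits), `24` hcap.
Real parameters `Q i`: `0` L, `1` thr, `2` α of the ratio 1 links, `3` α of the ratio K links,
`4` β, `5` α of the outer iteration, `6` δ² of the certificate. -/

/-- global data: `((P, (Q, λ)), ((E, (T0, S0)), (b, b')))`; `T0`, `S0` are the sketches -/
abbrev GT : Ty := .prod (.prod NArr (.prod VecT VecT))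
  (.prod (.prod OpT (.prod CooT CooT)) (.prod VecT VecT))

/-- the state: `((done, out), ((S, T), ((D, F), Θ)))` -/
abbrev StT : Ty := .prod (.prod .nat VecT) (.prod (.prod (.arr SDT) (.arr SDT))
  (.prod (.prod (.arr OpT) (.arr OpT)) ChT))

section

variable (g : GT.den)

abbrev gP (i : ℕ) : ℕ := g.1.1 i
abbrev gQ (i : ℕ) : ℝ := g.1.2.1 i
abbrev gLam (i : ℕ) : ℝ := g.1.2.2 i
abbrev gE : OpT.den := g.2.1.1

/-- first level of the chain of stage `j` -/
abbrev lev0 (j : ℕ) : ℕ := j - gP g 21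
/-- index of `E` at `λ_j` in the chain of stage `j` -/
abbrev topIx (j : ℕ) : ℕ := 2 * (j - lev0 g j) + 2

/-- the chain data of stage `j` -/
noncomputable def asm (j : ℕ) (D F : ℕ → OpT.den) (SE : OpT.den) (base : BaseT.den) : ChT.den :=
  (tabV FOpT (topIx g j + 3) (fun r =>
      if r < topIx g j - 1 then
        (if r = 2 * (r / 2) then (0, D (lev0 g j + r / 2)) else (1, F (lev0 g j + (r + 1) / 2)))
      else if r = topIx g j - 1 then (1, SE)
      else if r = topIx g j + 1 then (1, gE g) else (0, gE g)),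
    ((tabV .real (topIx g j + 3) (fun r =>
        if topIx g j < r then gLam g (j + 1)
        else if r < topIx g j - 1 then gLam g (lev0 g j + r / 2) else gLam g j),
      tabV .real (topIx g j + 3) (fun r =>
        if r = 0 then gQ g 2
        else if r = topIx g j + 1 then gQ g 3
        else if r < topIx g j - 1 then (if r = 2 * (r / 2) then gQ g 3 else gQ g 2)
        else gQ g 2)),
     (tabV .nat (topIx g j + 3) (fun r =>
        if r = 0 then gP g 16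
        else if r = topIx g j + 1 then gP g 17
        else if r < topIx g j - 1 then (if r = 2 * (r / 2) then gP g 17 else gP g 16)
        else gP g 16),
      (gQ g 4, base))))

/-- the check of the budgets at stage `j` -/
def Chk (j : ℕ) (st : StT.den) : Prop :=
  (∀ i ≤ j, lev0 g j ≤ i →
    opSize (st.2.2.1.1 i) * gP g 14 ^ (j - i) ≤
      gP g 20 * (gP g 1 ^ 2 * gP g 14 ^ (j - i) + gP g 2)) ∧
  (∀ i ≤ j, lev0 g j < i →
    opSize (st.2.2.1.2 i) * gP g 14 ^ (j - i) ≤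
      gP g 20 * (gP g 1 ^ 2 * gP g 14 ^ (j - i) + gP g 2)) ∧
  opHeavy (st.2.2.1.1 (lev0 g j)) (st.2.1.1 (lev0 g j)).2.2.2 (st.2.1.2 (lev0 g j)).2.2.2
    (gP g 24) ∧
  opRest (st.2.2.1.1 (lev0 g j)) (st.2.1.1 (lev0 g j)).2.2.2 (st.2.1.2 (lev0 g j)).2.2.2 *
      gP g 14 ^ (j - lev0 g j) ≤
    gP g 20 * (gP g 1 * gP g 14 ^ (j - lev0 g j) + gP g 2)

open Classical in
/-- value of the check -/
noncomputable def chk (x : (Ty.prod GT (.prod .nat StT)).den) : ℕ := if Chk x.1 x.2.1 x.2.2 then 1 else 0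

end

/-- the window number `i` -/
def win (W : ℕ) (r : ℕ → ℕ) (i : ℕ) : ℕ → ℕ := tabV .nat W (fun t => r (i * W + t))

/-- the weights of a sample as an array -/
noncomputable def wArr (n : ℕ) (x : SDT.den) : VecT.den := tabV .real n (fun i => sdW x i)

section

variable {mm : ℕ → ℕ} (Φ : Lib mm)

/-- the piece of length `len` of the window at the position `off` -/
def piece (w : ℕ → ℕ) (off len : ℕ) : ℕ → ℕ := tabV .nat len (fun t => w (off + t))

/-- the sign vectors at the position `off` of the window -/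
noncomputable def sgb (g : GT.den) (w : ℕ → ℕ) (off : ℕ) : (Ty.arr VecT).den :=
  Φ.sgns ((gP g 13, gP g 0), piece w off (gP g 13 * gP g 0))

/-- the elimination operator; input `((n, (l, s)), ((m1, m2), (A0, (T0, S0))))` -/
noncomputable def elimE (n l s m1 m2 : ℕ) (A0 T0 S0 : CooT.den) : OpT.den :=
  let U := Φ.mkU ((n, (l, m1)), (A0, T0))
  ((n, n), ((m1, m2), ((A0, U), (cooT (Φ.mkU ((n, (l, m2)), (cooT A0, S0))),
    Φ.gamma ((n, (s, l)), ((m1, m2), (U, S0)))))))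

/-- `S0 b` is multiplied by `Γ` -/
noncomputable def elimG (E : OpT.den) (S0 : CooT.den) (b : VecT.den) : VecT.den :=
  Φ.mvD (E.2.1, (E.2.2.2.2, Φ.mvC (E.2.1.2, (S0, b))))

/-- `b' = b - U Γ S0 b` -/
noncomputable def elimB (E : OpT.den) (S0 : CooT.den) (b : VecT.den) : VecT.den :=
  Φ.lin (E.1.1, ((1, b), (-1, Φ.mvC (E.1.1, (E.2.2.1.2, elimG Φ E S0 b)))))

/-- the output `v + T0 Γ S0 (b - A0 v)` -/
noncomputable def elimX (E : OpT.den) (T0 S0 : CooT.den) (b v : VecT.den) : VecT.den :=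
  Φ.lin (E.1.1, ((1, v), (1, Φ.mvC (E.1.1, (cooT T0, elimG Φ E S0
    (Φ.lin (E.1.1, ((1, b), (-1, Φ.mvC (E.1.1, (E.2.2.1.1, v)))))))))))

/-- `16 ∑_r |E g_r|²` -/
noncomputable def topLam (M : ℕ) (E : OpT.den) (s : (Ty.arr VecT).den) : ℝ :=
  16 * ∑ r ∈ range M, Φ.dot (E.1.1, (Φ.mv ((0, E), s r), Φ.mv ((0, E), s r)))

/-- the sketch of the base solver of stage `j` -/
noncomputable def omOf (g : GT.den) (j : ℕ) (st : StT.den) (w : ℕ → ℕ) : CooT.den :=
  cooT (Φ.sk (opC (st.2.2.1.1 (lev0 g j)), (gP g 5, (gP g 10, w))))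

/-- the base data of stage `j` -/
noncomputable def baseOf (g : GT.den) (j : ℕ) (st : StT.den) (w : ℕ → ℕ) : BaseT.den :=
  Φ.base (((gP g 24, gP g 12), (gP g 11, gP g 18)), (gLam g (lev0 g j),
    ((st.2.2.1.1 (lev0 g j), ((st.2.1.1 (lev0 g j)).2.2.2, (st.2.1.2 (lev0 g j)).2.2.2)),
      omOf Φ g j st w)))

/-- the chain data of stage `j` -/
noncomputable def theta (g : GT.den) (j : ℕ) (st : StT.den) (w : ℕ → ℕ) : ChT.den :=
  asm g j st.2.2.1.1 st.2.2.1.2 (Φ.mkOp (gE g, (st.2.1.1 j, sdFull (gP g 0)))) (baseOf Φ g j st w)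

/-- the candidate of stage `j` -/
noncomputable def cand (g : GT.den) (j : ℕ) (Θ : ChT.den) : VecT.den :=
  Φ.outer ((topIx g j, gP g 19), ((Θ, gQ g 5), g.2.2.2))

/-- the residual `E v - b'` -/
noncomputable def resid (g : GT.den) (v : VecT.den) : VecT.den :=
  Φ.lin (gP g 0, ((1, Φ.mv ((0, gE g), v)), (-1, g.2.2.2)))

/-- step 0 of stage `j`: the solver, the outer iteration, the certificate -/
noncomputable def st0 (g : GT.den) (j : ℕ) (st : StT.den) (w : ℕ → ℕ) : StT.den :=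
  if st.1.1 = 0 then
    if chk (g, (j, st)) = 1 then
      let Θ := theta Φ g j st w
      let v := cand Φ g j Θ
      let z := resid Φ g v
      if gQ g 6 * Φ.dot (gP g 0, (g.2.2.2, g.2.2.2)) < Φ.dot (gP g 0, (z, z)) then
        (st.1, (st.2.1, (st.2.2.1, Θ)))
      else ((1, elimX Φ (gE g) g.2.1.2.1 g.2.1.2.2 g.2.2.1 v), st.2)
    else ((1, fun _ => 0), st.2)
  else st

/-- exponents of the rates of the rows of level `j + 1` -/
noncomputable def eOf (g : GT.den) (j : ℕ) (Θ : ChT.den) (w : ℕ → ℕ) : NArr.den :=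
  Φ.rates ((gP g 0, gP g 5), (gQ g 0, Φ.score (topIx g j + 2, (Θ, (gP g 13,
    (sgb Φ g w (0 * (gP g 13 * gP g 0)), sgb Φ g w (1 * (gP g 13 * gP g 0))))))))

/-- exponents of the rates of the columns of level `j + 1` -/
noncomputable def fOf (g : GT.den) (j : ℕ) (Θ : ChT.den) (w : ℕ → ℕ) : NArr.den :=
  Φ.rates ((gP g 0, gP g 5), (gQ g 0, Φ.score (topIx g j + 1, (Θ, (gP g 13,
    (sgb Φ g w (2 * (gP g 13 * gP g 0)), sgb Φ g w (3 * (gP g 13 * gP g 0))))))))

/-- the column sample of level `j + 1`; `S` is the row sample of level `j` -/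
noncomputable def tOf (g : GT.den) (j : ℕ) (Θ : ChT.den) (S : SDT.den) (f : NArr.den)
    (w : ℕ → ℕ) : SDT.den :=
  Φ.smp ((gP g 0, (2 * gP g 5, gP g 22)), (f,
    (Φ.bad ((gP g 0, gQ g 1 * gLam g j), (f, Φ.clean (topIx g j, (Θ, (gP g 13,
      (wArr (gP g 0) S, sgb Φ g w (4 * (gP g 13 * gP g 0)))))))),
    piece w (5 * (gP g 13 * gP g 0)) (gP g 0 * (2 * gP g 5)))))

/-- the row sample of level `j + 1`; `T` is the column sample of level `j + 1` -/
noncomputable def sOf (g : GT.den) (j : ℕ) (Θ : ChT.den) (T : SDT.den) (e : NArr.den)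
    (w : ℕ → ℕ) : SDT.den :=
  Φ.smp ((gP g 0, (2 * gP g 5, gP g 22)), (e,
    (Φ.bad ((gP g 0, gQ g 1 * gLam g (j + 1)), (e, Φ.clean (topIx g j + 1, (Θ, (gP g 13,
      (wArr (gP g 0) T, sgb Φ g w (5 * (gP g 13 * gP g 0) + gP g 0 * (2 * gP g 5)))))))),
    piece w (6 * (gP g 13 * gP g 0) + gP g 0 * (2 * gP g 5)) (gP g 0 * (2 * gP g 5)))))

/-- step 1 of stage `j`: the level `j + 1` -/
noncomputable def st1 (g : GT.den) (j : ℕ) (st : StT.den) (w : ℕ → ℕ) : StT.den :=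
  if st.1.1 = 0 then
    let e := eOf Φ g j st.2.2.2 w
    let f := fOf Φ g j st.2.2.2 w
    let T := tOf Φ g j st.2.2.2 (st.2.1.1 j) f w
    let S := sOf Φ g j st.2.2.2 T e w
    (st.1, ((Function.update st.2.1.1 (j + 1) S, Function.update st.2.1.2 (j + 1) T),
      ((Function.update st.2.2.1.1 (j + 1) (Φ.mkOp (gE g, (S, T))),
        Function.update st.2.2.1.2 (j + 1) (Φ.mkOp (gE g, (st.2.1.1 j, T)))), st.2.2.2)))
  else st

/-- the steps as a Markov chain: step number `2 j + a` -/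
noncomputable def step (g : GT.den) (i : ℕ) (st : StT.den) (w : ℕ → ℕ) : StT.den :=
  if i % 2 = 0 then st0 Φ g (i / 2) st w else st1 Φ g (i / 2) st w

/-- one stage; `r` is the array of all bits, the first three windows are used before -/
noncomputable def stage (g : GT.den) (r : ℕ → ℕ) (j : ℕ) (st : StT.den) : StT.den :=
  st1 Φ g j (st0 Φ g j st (win (gP g 23) r (2 * j + 3))) (win (gP g 23) r (2 * j + 4))

/-- the initial state -/
noncomputable def start (g : GT.den) : StT.den :=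
  ((0, fun _ => 0), (((fun _ => sdEmpty), fun _ => sdEmpty),
    ((tabV OpT 1 (fun _ => Φ.mkOp (gE g, (sdEmpty, sdEmpty))), OpT.arr.default), ChT.default)))

/-- the main loop -/
noncomputable def loop (g : GT.den) (r : ℕ → ℕ) : StT.den :=
  iterV (stage Φ g r) (start Φ g) (gP g 15 + 1)

end

end A55
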