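import Pool.Agent.Lib_helper50.A55.Par

/-!
# MP_a55cb8: invariants and weights (definitions; helper50)
-/

open Matrix Finset

namespace A55

section

variable {mm : ℕ → ℕ} (Φ : Lib mm)

/-! ## CE: invariants of every run -/

/-- well formed global data -/
structure GOK (c : Cst) (x : InT.den) (A0 : CooT.den) (g : GT.den) : Prop where
  hP : g.1.1 = parN c x
  hQ : g.1.2.1 = parQ c x
  dim : (gE g).1 = (x.1.1, x.1.1)
  ok : OpOK (gE g)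
  mid : (gE g).2.1 = (pm1 c x, pm2 c x)
  lst : (gE g).2.2.1.1 = A0
  Aok : CooOK x.1.1 x.1.1 A0
  len : A0.1 = x.2.1
  row : ∀ i < x.1.1, rowCnt (gE g).2.2.1.2 i ≤ min (pl c x * rowCnt A0 i) (pm1 c x)
  col : ∀ i < x.1.1, colCnt (gE g).2.2.2.1 i ≤ min (pl c x * colCnt A0 i) (pm2 c x)
  hT : SkOK x.1.1 (pl c x) (pm1 c x) g.2.1.2.1
  hS : SkOK x.1.1 (pl c x) (pm2 c x) g.2.1.2.2
  lam : ∀ i, 0 ≤ gLam g i
  lamE : ∀ i < pl c x ^ 3 + 2, gLam g i = gLam g 0 * ((pK c x : ℝ)⁻¹) ^ i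

/-- the samples and operators up to level `j` are in order -/
def Lev (g : GT.den) (j : ℕ) (st : StT.den) : Prop :=
  st.2.1.1 0 = sdEmpty ∧ st.2.1.2 0 = sdEmpty ∧
  (∀ i ≤ j, SDOK (gP g 0) (st.2.1.1 i) ∧ SDOK (gP g 0) (st.2.1.2 i) ∧
    st.2.2.1.1 i = Φ.mkOp (gE g, (st.2.1.1 i, st.2.1.2 i))) ∧
  ∀ i < j, st.2.2.1.2 (i + 1) = Φ.mkOp (gE g, (st.2.1.1 i, st.2.1.2 (i + 1)))

/-- invariant before stage `j` -/
def Inv0 (g : GT.den) (j : ℕ) (st : StT.den) : Prop := st.1.1 = 0 → Lev Φ g j st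

/-- invariant after step 0 of stage `j` -/
def Inv1 (g : GT.den) (j : ℕ) (st : StT.den) : Prop :=
  st.1.1 = 0 → Lev Φ g j st ∧ Chk g j st ∧ ∃ w, st.2.2.2 = theta Φ g j st w

/-! ## weights -/

open Classical in
/-- weight of step 0 -/
noncomputable def w0 (g : GT.den) (j : ℕ) (st : StT.den) (w : ℕ → ℕ) : ℕ :=
  if st.1.1 = 0 then
    (j + 4) ^ 2 + gP g 20 * (gP g 1 ^ 2 + gP g 2 + 1) +
    (if Chk g j st then
      (gP g 5 + 1) * (opC (st.2.2.1.1 (lev0 g j)) + 1) * (gP g 10 + 1) + 2 ^ gP g 10 +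
      (gP g 18 + 1) * (mm (2 ^ gP g 12) + (gP g 11 + 1) *
        (opRest (st.2.2.1.1 (lev0 g j)) (st.2.1.1 (lev0 g j)).2.2.2 (st.2.1.2 (lev0 g j)).2.2.2 +
          gP g 24 + 1) + opSize (st.2.2.1.1 (lev0 g j))) + (gP g 12 + 1) * mm (2 ^ gP g 12) +
      (gP g 11 + 1) * (gP g 5 * opC (st.2.2.1.1 (lev0 g j)) + 1) + opSize (gE g) +
      (gP g 19 + 1) * (chCost Φ.C (theta Φ g j st w) (topIx g j) + opSize (gE g) + 1) +
      gP g 0 + g.2.1.2.1.1 + g.2.1.2.2.1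
    else 0)
  else 0

/-- weight of step 1 -/
noncomputable def w1 (g : GT.den) (j : ℕ) (st : StT.den) : ℕ :=
  if st.1.1 = 0 then
    (gP g 13 + 1) * (gP g 0 + 1) * (gP g 5 + 1) +
    (gP g 13 + 1) * (chCost Φ.C st.2.2.2 (topIx g j) + opSize (st.2.2.2.1 (topIx g j)).2 +
      chCost Φ.C st.2.2.2 (topIx g j + 1) + opSize (st.2.2.2.1 (topIx g j + 1)).2 +
      chCost Φ.C st.2.2.2 (topIx g j + 2) + opSize (st.2.2.2.1 (topIx g j + 2)).2) +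
    opSize (gE g)
  else 0

/-- factor of one level of the chain -/
def rho0 (C : ℕ) (c : Cst) (x : InT.den) : ℕ := C ^ 2 * (pdegK c x + 2) * (pdeg1 c x + 2)

/-- final weight of the algorithm -/
def wAlg (mm : ℕ → ℕ) (C : ℕ) (c : Cst) (x : InT.den) : ℕ :=
  mm (2 ^ ps c x) + x.1.2 * (x.2.1 / pK c x ^ pbb c x + 1) +
    (x.2.2.1 + 1) * (x.2.2.2 + 1) * (rho0 C c x ^ pbb c x * x.1.2 ^ 2 + x.2.1)

end

end A55
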