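import Pool.Agent.Lib_helper50.A55.Defs

/-!
# A semantic closure class for programs with costs (adapted from helper41's `Cp`)

`Cp s t V F c`: there is a program text which, whenever its argument `x : s.den` (variable `0` of
type `s`) and the procedure environment `φ` satisfy `V φ x`, returns `F x` with cost at most
`c x`.  The class is closed under everything the language offers, so that algorithms can be
written as ordinary functions.
-/

open Finset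

namespace A55

/-- procedure environments -/
abbrev FnE : Type := (s t : Ty) → ℕ → s.den → t.den × ℕ

/-- `F` is computed on `V` with cost at most `c`. -/
def Cp (s t : Ty) (V : FnE → s.den → Prop) (F : s.den → t.den) (c : s.den → ℕ) : Prop :=
  ∃ P : Tm t, ∀ ρ : Env, V ρ.fn (ρ.val s 0) →
    (P.eval ρ).1 = F (ρ.val s 0) ∧ (P.eval ρ).2 ≤ c (ρ.val s 0)

variable {s t u v : Ty}

@[simp] theorem Env.set_same (ρ : Env) (s : Ty) (x : ℕ) (v : s.den) :
    (ρ.set s x v).val s x = v := by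
  simp [Env.set]

theorem Env.set_ne (ρ : Env) (s : Ty) (x : ℕ) (v : s.den) (t : Ty) (y : ℕ) (h : y ≠ x) :
    (ρ.set s x v).val t y = ρ.val t y := by
  simp [Env.set, h]

@[simp] theorem Env.set_fn (ρ : Env) (s : Ty) (x : ℕ) (v : s.den) :
    (ρ.set s x v).fn = ρ.fn := rfl

@[simp] theorem Env.setFn_val (ρ : Env) (s t : Ty) (f : ℕ) (F : s.den → t.den × ℕ) :
    (ρ.setFn s t f F).val = ρ.val := rfl

@[simp] theorem Env.setFn_same (ρ : Env) (s t : Ty) (f : ℕ) (F : s.den → t.den × ℕ) :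
    (ρ.setFn s t f F).fn s t f = F := by
  simp [Env.setFn]

theorem Cp.mono {V W : FnE → s.den → Prop} {F : s.den → t.den} {c d : s.den → ℕ}
    (h : Cp s t V F c) (hV : ∀ φ x, W φ x → V φ x) (hc : ∀ φ x, W φ x → c x ≤ d x) :
    Cp s t W F d := by
  obtain ⟨P, hP⟩ := h
  exact ⟨P, fun ρ hρ => ⟨(hP ρ (hV _ _ hρ)).1, (hP ρ (hV _ _ hρ)).2.trans (hc _ _ hρ)⟩⟩

theorem Cp.cost {V : FnE → s.den → Prop} {F : s.den → t.den} {c : s.den → ℕ} (d : s.den → ℕ)
    (h : Cp s t V F c) (hc : ∀ φ x, V φ x → c x ≤ d x) : Cp s t V F d :=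
  h.mono (fun _ _ h => h) hc

theorem Cp.weaken {V W : FnE → s.den → Prop} {F : s.den → t.den} {c : s.den → ℕ}
    (h : Cp s t V F c) (hV : ∀ φ x, W φ x → V φ x) : Cp s t W F c :=
  h.mono hV fun _ _ _ => le_rfl

theorem Cp.congr {V : FnE → s.den → Prop} {F G : s.den → t.den} {c : s.den → ℕ}
    (h : Cp s t V F c) (hF : ∀ φ x, V φ x → F x = G x) : Cp s t V G c := by
  obtain ⟨P, hP⟩ := h
  exact ⟨P, fun ρ hρ => ⟨(hP ρ hρ).1.trans (hF _ _ hρ), (hP ρ hρ).2⟩⟩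

/-! ## Basic rules -/

theorem Cp.id {V : FnE → s.den → Prop} : Cp s s V (fun x => x) (fun _ => 1) :=
  ⟨.var s 0, fun ρ _ => ⟨rfl, by simp [Tm.eval]⟩⟩

/-- Composition (subroutine call). -/
theorem Cp.comp {V : FnE → s.den → Prop} {W : FnE → u.den → Prop} {F : s.den → u.den}
    {G : u.den → t.den} {c : s.den → ℕ} {d : u.den → ℕ} (hG : Cp u t W G d)
    (hF : Cp s u V F c) (hW : ∀ φ x, V φ x → W φ (F x)) :
    Cp s t V (fun x => G (F x)) (fun x => 1 + c x + d (F x)) := by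
  obtain ⟨P, hP⟩ := hF
  obtain ⟨Q, hQ⟩ := hG
  refine ⟨.letE 0 P Q, fun ρ hρ => ?_⟩
  have h1 := hP ρ hρ
  have h2 := hQ (ρ.set u 0 (P.eval ρ).1) (by rw [Env.set_same, h1.1]; exact hW _ _ hρ)
  rw [Env.set_same, h1.1] at h2
  simp only [Tm.eval]
  rw [h1.1]
  refine ⟨h2.1, ?_⟩
  have := h1.2
  have := h2.2
  omega

theorem Cp.pair {V : FnE → s.den → Prop} {F : s.den → t.den} {G : s.den → u.den}
    {c d : s.den → ℕ} (hF : Cp s t V F c) (hG : Cp s u V G d) :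
    Cp s (.prod t u) V (fun x => (F x, G x)) (fun x => 1 + c x + d x) := by
  obtain ⟨P, hP⟩ := hF
  obtain ⟨Q, hQ⟩ := hG
  refine ⟨.pair P Q, fun ρ hρ => ⟨?_, ?_⟩⟩
  · simp only [Tm.eval, (hP ρ hρ).1, (hQ ρ hρ).1]
  · have := (hP ρ hρ).2
    have := (hQ ρ hρ).2
    simp only [Tm.eval]
    omega

theorem Cp.fst {V : FnE → s.den → Prop} {F : s.den → (Ty.prod t u).den} {c : s.den → ℕ}
    (hF : Cp s (.prod t u) V F c) : Cp s t V (fun x => (F x).1) (fun x => 1 + c x) := by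
  obtain ⟨P, hP⟩ := hF
  refine ⟨.fst P, fun ρ hρ => ⟨?_, ?_⟩⟩
  · simp only [Tm.eval, (hP ρ hρ).1]
  · have := (hP ρ hρ).2
    simp only [Tm.eval]
    omega

theorem Cp.snd {V : FnE → s.den → Prop} {F : s.den → (Ty.prod t u).den} {c : s.den → ℕ}
    (hF : Cp s (.prod t u) V F c) : Cp s u V (fun x => (F x).2) (fun x => 1 + c x) := by
  obtain ⟨P, hP⟩ := hF
  refine ⟨.snd P, fun ρ hρ => ⟨?_, ?_⟩⟩
  · simp only [Tm.eval, (hP ρ hρ).1]
  · have := (hP ρ hρ).2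
    simp only [Tm.eval]
    omega

/-! ## Naturals -/

theorem Cp.nlit {V : FnE → s.den → Prop} (m : ℕ) : Cp s .nat V (fun _ => m) (fun _ => 1) :=
  ⟨.nlit m, fun ρ _ => ⟨rfl, by simp [Tm.eval]⟩⟩

section bin

variable {V : FnE → s.den → Prop}

theorem Cp.nadd {F G : s.den → ℕ} {c d : s.den → ℕ}
    (hF : Cp s .nat V F c) (hG : Cp s .nat V G d) :
    Cp s .nat V (fun x => F x + G x) (fun x => 1 + c x + d x) := by
  obtain ⟨P, hP⟩ := hF
  obtain ⟨Q, hQ⟩ := hG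
  refine ⟨.nadd P Q, fun ρ hρ => ⟨?_, ?_⟩⟩
  · simp only [Tm.eval, (hP ρ hρ).1, (hQ ρ hρ).1]
  · have := (hP ρ hρ).2
    have := (hQ ρ hρ).2
    simp only [Tm.eval]
    omega

theorem Cp.nsub {F G : s.den → ℕ} {c d : s.den → ℕ}
    (hF : Cp s .nat V F c) (hG : Cp s .nat V G d) :
    Cp s .nat V (fun x => F x - G x) (fun x => 1 + c x + d x) := by
  obtain ⟨P, hP⟩ := hF
  obtain ⟨Q, hQ⟩ := hG
  refine ⟨.nsub P Q, fun ρ hρ => ⟨?_, ?_⟩⟩
  · simp only [Tm.eval, (hP ρ hρ).1, (hQ ρ hρ).1]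
  · have := (hP ρ hρ).2
    have := (hQ ρ hρ).2
    simp only [Tm.eval]
    omega

theorem Cp.nmul {F G : s.den → ℕ} {c d : s.den → ℕ}
    (hF : Cp s .nat V F c) (hG : Cp s .nat V G d) :
    Cp s .nat V (fun x => F x * G x) (fun x => 1 + c x + d x) := by
  obtain ⟨P, hP⟩ := hF
  obtain ⟨Q, hQ⟩ := hG
  refine ⟨.nmul P Q, fun ρ hρ => ⟨?_, ?_⟩⟩
  · simp only [Tm.eval, (hP ρ hρ).1, (hQ ρ hρ).1]
  · have := (hP ρ hρ).2
    have := (hQ ρ hρ).2
    simp only [Tm.eval]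
    omega

/-! ## Real numbers -/

theorem Cp.cast {F : s.den → ℕ} {c : s.den → ℕ} (hF : Cp s .nat V F c) :
    Cp s .real V (fun x => ((F x : ℕ) : ℝ)) (fun x => 1 + c x) := by
  obtain ⟨P, hP⟩ := hF
  refine ⟨.cast P, fun ρ hρ => ⟨?_, ?_⟩⟩
  · simp only [Tm.eval, (hP ρ hρ).1]
  · have := (hP ρ hρ).2
    simp only [Tm.eval]
    omega

theorem Cp.add {F G : s.den → ℝ} {c d : s.den → ℕ}
    (hF : Cp s .real V F c) (hG : Cp s .real V G d) :
    Cp s .real V (fun x => F x + G x) (fun x => 1 + c x + d x) := by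
  obtain ⟨P, hP⟩ := hF
  obtain ⟨Q, hQ⟩ := hG
  refine ⟨.add P Q, fun ρ hρ => ⟨?_, ?_⟩⟩
  · simp only [Tm.eval, (hP ρ hρ).1, (hQ ρ hρ).1]
  · have := (hP ρ hρ).2
    have := (hQ ρ hρ).2
    simp only [Tm.eval]
    omega

theorem Cp.sub {F G : s.den → ℝ} {c d : s.den → ℕ}
    (hF : Cp s .real V F c) (hG : Cp s .real V G d) :
    Cp s .real V (fun x => F x - G x) (fun x => 1 + c x + d x) := by
  obtain ⟨P, hP⟩ := hF
  obtain ⟨Q, hQ⟩ := hG
  refine ⟨.sub P Q, fun ρ hρ => ⟨?_, ?_⟩⟩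
  · simp only [Tm.eval, (hP ρ hρ).1, (hQ ρ hρ).1]
  · have := (hP ρ hρ).2
    have := (hQ ρ hρ).2
    simp only [Tm.eval]
    omega

theorem Cp.mul {F G : s.den → ℝ} {c d : s.den → ℕ}
    (hF : Cp s .real V F c) (hG : Cp s .real V G d) :
    Cp s .real V (fun x => F x * G x) (fun x => 1 + c x + d x) := by
  obtain ⟨P, hP⟩ := hF
  obtain ⟨Q, hQ⟩ := hG
  refine ⟨.mul P Q, fun ρ hρ => ⟨?_, ?_⟩⟩
  · simp only [Tm.eval, (hP ρ hρ).1, (hQ ρ hρ).1]
  · have := (hP ρ hρ).2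
    have := (hQ ρ hρ).2
    simp only [Tm.eval]
    omega

theorem Cp.div {F G : s.den → ℝ} {c d : s.den → ℕ}
    (hF : Cp s .real V F c) (hG : Cp s .real V G d) :
    Cp s .real V (fun x => F x / G x) (fun x => 1 + c x + d x) := by
  obtain ⟨P, hP⟩ := hF
  obtain ⟨Q, hQ⟩ := hG
  refine ⟨.div P Q, fun ρ hρ => ⟨?_, ?_⟩⟩
  · simp only [Tm.eval, (hP ρ hρ).1, (hQ ρ hρ).1]
  · have := (hP ρ hρ).2
    have := (hQ ρ hρ).2
    simp only [Tm.eval]
    omega

/-! ## Branching -/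

theorem Cp.ifN {A B : s.den → ℕ} {F G : s.den → t.den} {a b c d : s.den → ℕ}
    (hA : Cp s .nat V A a) (hB : Cp s .nat V B b)
    (hF : Cp s t (fun φ x => V φ x ∧ A x < B x) F c)
    (hG : Cp s t (fun φ x => V φ x ∧ ¬ A x < B x) G d) :
    Cp s t V (fun x => if A x < B x then F x else G x)
      (fun x => 1 + a x + b x + if A x < B x then c x else d x) := by
  obtain ⟨P, hP⟩ := hA
  obtain ⟨Q, hQ⟩ := hB
  obtain ⟨R, hR⟩ := hF
  obtain ⟨S, hS⟩ := hG
  refine ⟨.ifN P Q R S, fun ρ hρ => ?_⟩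
  have h1 := hP ρ hρ
  have h2 := hQ ρ hρ
  simp only [Tm.eval, h1.1, h2.1]
  by_cases h : A (ρ.val s 0) < B (ρ.val s 0)
  · have h3 := hR ρ ⟨hρ, h⟩
    simp only [h, if_true]
    exact ⟨h3.1, by omega⟩
  · have h3 := hS ρ ⟨hρ, h⟩
    simp only [h, if_false]
    exact ⟨h3.1, by omega⟩

open Classical in
theorem Cp.ifLt {A B : s.den → ℝ} {F G : s.den → t.den} {a b c d : s.den → ℕ}
    (hA : Cp s .real V A a) (hB : Cp s .real V B b)
    (hF : Cp s t (fun φ x => V φ x ∧ A x < B x) F c)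
    (hG : Cp s t (fun φ x => V φ x ∧ ¬ A x < B x) G d) :
    Cp s t V (fun x => if A x < B x then F x else G x)
      (fun x => 1 + a x + b x + if A x < B x then c x else d x) := by
  obtain ⟨P, hP⟩ := hA
  obtain ⟨Q, hQ⟩ := hB
  obtain ⟨R, hR⟩ := hF
  obtain ⟨S, hS⟩ := hG
  refine ⟨.ifLt P Q R S, fun ρ hρ => ?_⟩
  have h1 := hP ρ hρ
  have h2 := hQ ρ hρ
  simp only [Tm.eval, h1.1, h2.1]
  by_cases h : A (ρ.val s 0) < B (ρ.val s 0)
  · have h3 := hR ρ ⟨hρ, h⟩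
    simp only [h, if_true]
    exact ⟨h3.1, by omega⟩
  · have h3 := hS ρ ⟨hρ, h⟩
    simp only [h, if_false]
    exact ⟨h3.1, by omega⟩

/-! ## Local definitions -/

theorem Cp.let_ {A : s.den → u.den} {B : s.den → u.den → t.den}
    {ca : s.den → ℕ} {cb : (Ty.prod s u).den → ℕ} (hA : Cp s u V A ca)
    (hB : Cp (.prod s u) t (fun φ p => V φ p.1 ∧ p.2 = A p.1) (fun p => B p.1 p.2) cb) :
    Cp s t V (fun x => B x (A x)) (fun x => 3 + ca x + cb (x, A x)) := by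
  obtain ⟨P, hP⟩ := hA
  obtain ⟨Q, hQ⟩ := hB
  refine ⟨.letE 0 (.pair (.var s 0) P) Q, fun ρ hρ => ?_⟩
  have h1 := hP ρ hρ
  have h2 := hQ (ρ.set (.prod s u) 0 (ρ.val s 0, (P.eval ρ).1))
    (by rw [Env.set_same, h1.1]; exact ⟨hρ, rfl⟩)
  rw [Env.set_same] at h2
  simp only [Tm.eval]
  rw [h1.1] at h2 ⊢
  refine ⟨h2.1, ?_⟩
  have := h1.2
  have := h2.2
  omega

/-! ## Arrays -/

/-- The array `[f 0, ..., f (n-1)]`. -/
def tabV (t : Ty) (n : ℕ) (f : ℕ → t.den) : (Ty.arr t).den :=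
  fun i => if i < n then f i else t.default

theorem tabV_lt {n : ℕ} {f : ℕ → t.den} {i : ℕ} (h : i < n) : tabV t n f i = f i := by
  simp [tabV, h]

theorem tabV_ge {n : ℕ} {f : ℕ → t.den} {i : ℕ} (h : n ≤ i) : tabV t n f i = t.default := by
  simp [tabV, Nat.not_lt.mpr h]

theorem Cp.tab {N : s.den → ℕ} {F : s.den → ℕ → t.den} {cn : s.den → ℕ}
    {cf : (Ty.prod s .nat).den → ℕ} (hN : Cp s .nat V N cn)
    (hF : Cp (.prod s .nat) t (fun φ p => V φ p.1 ∧ p.2 < N p.1) (fun p => F p.1 p.2) cf) :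
    Cp s (.arr t) V (fun x => tabV t (N x) (F x))
      (fun x => 1 + cn x + ∑ j ∈ range (N x), (4 + cf (x, j))) := by
  obtain ⟨P, hP⟩ := hN
  obtain ⟨Q, hQ⟩ := hF
  refine ⟨.tab P 1 (.letE 0 (.pair (.var s 0) (.var .nat 1)) Q), fun ρ hρ => ?_⟩
  have h1 := hP ρ hρ
  have key : ∀ j < N (ρ.val s 0),
      ((Tm.letE 0 (.pair (.var s 0) (.var .nat 1)) Q).eval (ρ.set .nat 1 j)).1 =
        F (ρ.val s 0) j ∧
      ((Tm.letE 0 (.pair (.var s 0) (.var .nat 1)) Q).eval (ρ.set .nat 1 j)).2 ≤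
        4 + cf (ρ.val s 0, j) := by
    intro j hj
    have h2 := hQ ((ρ.set .nat 1 j).set (.prod s .nat) 0 (ρ.val s 0, j))
      (by rw [Env.set_same]; exact ⟨hρ, hj⟩)
    rw [Env.set_same] at h2
    have h0 : (ρ.set .nat 1 j).val s 0 = ρ.val s 0 := Env.set_ne _ _ _ _ _ _ (by decide)
    simp only [Tm.eval, h0, Env.set_same]
    exact ⟨h2.1, by have := h2.2; omega⟩
  refine ⟨?_, ?_⟩
  · simp only [Tm.eval] at key ⊢
    rw [h1.1]
    funext i
    by_cases hi : i < N (ρ.val s 0)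
    · rw [tabV_lt hi, if_pos hi]
      exact (key i hi).1
    · rw [tabV_ge (not_lt.mp hi), if_neg hi]
  · have h3 : ((Tm.tab P 1 (.letE 0 (.pair (.var s 0) (.var .nat 1)) Q)).eval ρ).2 =
        1 + (P.eval ρ).2 + ∑ i ∈ range (P.eval ρ).1,
          ((Tm.letE 0 (.pair (.var s 0) (.var .nat 1)) Q).eval (ρ.set .nat 1 i)).2 := by
      rw [Tm.eval]
    rw [h3, h1.1]
    exact add_le_add (add_le_add le_rfl h1.2) (sum_le_sum fun i hi =>
      (key i (mem_range.mp hi)).2)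

theorem Cp.get {A : s.den → (Ty.arr t).den} {I : s.den → ℕ}
    {ca ci : s.den → ℕ} (hA : Cp s (.arr t) V A ca) (hI : Cp s .nat V I ci) :
    Cp s t V (fun x => A x (I x)) (fun x => 1 + ca x + ci x) := by
  obtain ⟨P, hP⟩ := hA
  obtain ⟨Q, hQ⟩ := hI
  refine ⟨.get P Q, fun ρ hρ => ⟨?_, ?_⟩⟩
  · simp only [Tm.eval, (hP ρ hρ).1, (hQ ρ hρ).1]
  · have := (hP ρ hρ).2
    have := (hQ ρ hρ).2
    simp only [Tm.eval]
    omega

theorem Cp.upd {A : s.den → (Ty.arr t).den} {I : s.den → ℕ} {X : s.den → t.den}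
    {ca ci cx : s.den → ℕ} (hA : Cp s (.arr t) V A ca) (hI : Cp s .nat V I ci)
    (hX : Cp s t V X cx) :
    Cp s (.arr t) V (fun x => Function.update (A x) (I x) (X x))
      (fun x => 1 + ca x + ci x + cx x) := by
  obtain ⟨P, hP⟩ := hA
  obtain ⟨Q, hQ⟩ := hI
  obtain ⟨R, hR⟩ := hX
  refine ⟨.upd P Q R, fun ρ hρ => ⟨?_, ?_⟩⟩
  · simp only [Tm.eval, (hP ρ hρ).1, (hQ ρ hρ).1, (hR ρ hρ).1]
  · have := (hP ρ hρ).2
    have := (hQ ρ hρ).2
    have := (hR ρ hρ).2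
    simp only [Tm.eval]
    omega

/-! ## Loops -/

/-- `x := a; for i = 0, ..., n-1 do x := B i x`. -/
def iterV {α : Type} (B : ℕ → α → α) (a : α) : ℕ → α
  | 0 => a
  | n + 1 => B n (iterV B a n)

@[simp] theorem iterV_zero {α : Type} (B : ℕ → α → α) (a : α) : iterV B a 0 = a := rfl

theorem iterV_succ {α : Type} (B : ℕ → α → α) (a : α) (n : ℕ) :
    iterV B a (n + 1) = B n (iterV B a n) := rfl

theorem iterRun_sum {α : Type} (F : ℕ → α → α × ℕ) (x : α) (n : ℕ) :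
    (iterRun F x n).2 = ∑ j ∈ range n, ((F j (iterRun F x j).1).2 + 1) := by
  induction n with
  | zero => simp [iterRun]
  | succ n ih => rw [iterRun, sum_range_succ, ih]; simp only; omega

theorem Cp.iter {N : s.den → ℕ} {A : s.den → t.den}
    {B : s.den → ℕ → t.den → t.den} {cn ca : s.den → ℕ}
    {cb : (Ty.prod s (.prod .nat t)).den → ℕ} (hN : Cp s .nat V N cn) (hA : Cp s t V A ca)
    (hB : Cp (.prod s (.prod .nat t)) t
      (fun φ p => V φ p.1 ∧ p.2.1 < N p.1 ∧ p.2.2 = iterV (B p.1) (A p.1) p.2.1)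
      (fun p => B p.1 p.2.1 p.2.2) cb) :
    Cp s t V (fun x => iterV (B x) (A x) (N x))
      (fun x => 1 + cn x + ca x +
        ∑ j ∈ range (N x), (7 + cb (x, j, iterV (B x) (A x) j))) := by
  obtain ⟨P, hP⟩ := hN
  obtain ⟨R, hR⟩ := hA
  obtain ⟨Q, hQ⟩ := hB
  refine ⟨.iter P R 1 2 (.letE 0 (.pair (.var s 0) (.pair (.var .nat 1) (.var t 2))) Q),
    fun ρ hρ => ?_⟩
  have h1 := hP ρ hρ
  have h2 := hR ρ hρ
  set body : Tm t := .letE 0 (.pair (.var s 0) (.pair (.var .nat 1) (.var t 2))) Q with hbody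
  have key : ∀ j < N (ρ.val s 0),
      (body.eval ((ρ.set .nat 1 j).set t 2 (iterV (B (ρ.val s 0)) (A (ρ.val s 0)) j))).1 =
        iterV (B (ρ.val s 0)) (A (ρ.val s 0)) (j + 1) ∧
      (body.eval ((ρ.set .nat 1 j).set t 2 (iterV (B (ρ.val s 0)) (A (ρ.val s 0)) j))).2 ≤
        6 + cb (ρ.val s 0, j, iterV (B (ρ.val s 0)) (A (ρ.val s 0)) j) := by
    intro j hj
    have h3 := hQ (((ρ.set .nat 1 j).set t 2 (iterV (B (ρ.val s 0)) (A (ρ.val s 0)) j)).set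
      (.prod s (.prod .nat t)) 0 (ρ.val s 0, j, iterV (B (ρ.val s 0)) (A (ρ.val s 0)) j))
      (by rw [Env.set_same]; exact ⟨hρ, hj, rfl⟩)
    rw [Env.set_same] at h3
    have h0 : ((ρ.set .nat 1 j).set t 2 (iterV (B (ρ.val s 0)) (A (ρ.val s 0)) j)).val s 0 =
        ρ.val s 0 := by
      rw [Env.set_ne _ _ _ _ _ _ (by decide), Env.set_ne _ _ _ _ _ _ (by decide)]
    have h01 : ((ρ.set .nat 1 j).set t 2
        (iterV (B (ρ.val s 0)) (A (ρ.val s 0)) j)).val .nat 1 = j := by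
      rw [Env.set_ne _ _ _ _ _ _ (by decide), Env.set_same]
    simp only [hbody, Tm.eval, h0, h01, Env.set_same]
    exact ⟨h3.1, by have := h3.2; omega⟩
  have hit : ∀ j ≤ N (ρ.val s 0),
      (iterRun (fun j v => body.eval ((ρ.set .nat 1 j).set t 2 v)) (A (ρ.val s 0)) j).1 =
        iterV (B (ρ.val s 0)) (A (ρ.val s 0)) j := by
    intro j
    induction j with
    | zero => intro _; rfl
    | succ j ih =>
      intro hj
      rw [iterRun]
      simp only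
      rw [ih (by omega)]
      exact (key j (by omega)).1
  refine ⟨?_, ?_⟩
  · simp only [Tm.eval, h1.1, h2.1]
    exact hit _ le_rfl
  · simp only [Tm.eval, h1.1, h2.1]
    rw [iterRun_sum]
    refine add_le_add (add_le_add (add_le_add le_rfl h1.2) h2.2) (sum_le_sum fun j hj => ?_)
    have hj' := mem_range.mp hj
    rw [hit j hj'.le]
    have := (key j hj').2
    omega

/-! ## Recursion -/

/-- Recursion: `G j` is the function computed by the procedure `f_j`, on the domain `U j`, with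
cost at most `γ j`. -/
theorem Cp.rec {N : s.den → ℕ} {X : s.den → u.den} {cn cx : s.den → ℕ}
    {G : ℕ → u.den → t.den} {U : ℕ → u.den → Prop} {γ : ℕ → u.den → ℕ}
    (hN : Cp s .nat V N cn) (hX : Cp s u V X cx)
    (h0 : Cp u t (fun _ x => U 0 x) (G 0) (γ 0))
    (hS : Cp (.prod .nat u) t (fun φ p => U (p.1 + 1) p.2 ∧ ∀ y, U p.1 y →
        (φ u t 0 y).1 = G p.1 y ∧ (φ u t 0 y).2 ≤ γ p.1 y)
      (fun p => G (p.1 + 1) p.2) (fun p => γ (p.1 + 1) p.2 - 4))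
    (hγ : ∀ j x, 4 ≤ γ (j + 1) x)
    (hU : ∀ φ x, V φ x → U (N x) (X x)) :
    Cp s t V (fun x => G (N x) (X x)) (fun x => 1 + cn x + cx x + γ (N x) (X x)) := by
  obtain ⟨P, hP⟩ := hN
  obtain ⟨Q, hQ⟩ := hX
  obtain ⟨R, hR⟩ := h0
  obtain ⟨S, hS⟩ := hS
  refine ⟨.recE (s := u) P 0 1 0 R (.letE 0 (.pair (.var .nat 1) (.var u 0)) S) Q,
    fun ρ hρ => ?_⟩
  have h1 := hP ρ hρ
  have h2 := hQ ρ hρ
  set F : ℕ → u.den → t.den × ℕ := fun m => Nat.rec
        (fun y => R.eval (ρ.set u 0 y))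
        (fun j F' y => (Tm.letE 0 (.pair (.var .nat 1) (.var u 0)) S).eval
          (((ρ.set u 0 y).set .nat 1 j).setFn u t 0 F')) m with hF
  have key : ∀ m y, U m y → (F m y).1 = G m y ∧ (F m y).2 ≤ γ m y := by
    intro m
    induction m with
    | zero =>
      intro y hy
      have := hR (ρ.set u 0 y) (by rw [Env.set_same]; exact hy)
      rw [Env.set_same] at this
      exact this
    | succ m ih =>
      intro y hy
      have e0 : (((ρ.set u 0 y).set .nat 1 m).setFn u t 0 (F m)).val u 0 = y := by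
        rw [Env.setFn_val, Env.set_ne _ _ _ _ _ _ (by decide), Env.set_same]
      have e1 : (((ρ.set u 0 y).set .nat 1 m).setFn u t 0 (F m)).val .nat 1 = m := by
        rw [Env.setFn_val, Env.set_same]
      have := hS ((((ρ.set u 0 y).set .nat 1 m).setFn u t 0 (F m)).set (.prod .nat u) 0 (m, y))
        (by
          rw [Env.set_same, Env.set_fn]
          refine ⟨hy, ?_⟩
          rw [Env.setFn_same]
          exact ih)
      rw [Env.set_same] at this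
      have e2 : F (m + 1) y = (Tm.letE 0 (.pair (.var .nat 1) (.var u 0)) S).eval
          (((ρ.set u 0 y).set .nat 1 m).setFn u t 0 (F m)) := rfl
      rw [e2]
      simp only [Tm.eval, e0, e1]
      refine ⟨this.1, ?_⟩
      have h3 := this.2
      have h4 := hγ m y
      simp only at h3
      omega
  have h3 := key (N (ρ.val s 0)) (X (ρ.val s 0)) (hU _ _ hρ)
  have e3 : ((Tm.recE (s := u) P 0 1 0 R (.letE 0 (.pair (.var .nat 1) (.var u 0)) S) Q).eval ρ) =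
      ((F (P.eval ρ).1 (Q.eval ρ).1).1,
        1 + (P.eval ρ).2 + (Q.eval ρ).2 + (F (P.eval ρ).1 (Q.eval ρ).1).2) := by
    rw [Tm.eval]
  rw [e3, h1.1, h2.1]
  refine ⟨h3.1, ?_⟩
  have := h1.2
  have := h2.2
  have := h3.2
  simp only
  omega

/-- Call of the procedure inside a recursion. -/
theorem Cp.call {X : s.den → u.den} {cx : s.den → ℕ} {G : s.den → u.den → t.den}
    {γ : s.den → u.den → ℕ} (hX : Cp s u V X cx)
    (h : ∀ φ x, V φ x → (φ u t 0 (X x)).1 = G x (X x) ∧ (φ u t 0 (X x)).2 ≤ γ x (X x)) :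
    Cp s t V (fun x => G x (X x)) (fun x => 1 + cx x + γ x (X x)) := by
  obtain ⟨P, hP⟩ := hX
  refine ⟨.call (s := u) 0 P, fun ρ hρ => ?_⟩
  have h1 := hP ρ hρ
  have h2 := h _ _ hρ
  simp only [Tm.eval, h1.1]
  refine ⟨h2.1, ?_⟩
  have := h1.2
  have := h2.2
  omega

end bin

end A55
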