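import Pool.Agent.Lib_helper50.A55.Spec

/-!
# MP_a55cb8: mathematical definitions (helper50)

`A : m × n`, ridge `l > 0`, `G = l A (AᵀA + l)⁻¹`.  Row samples are matrices `S : a × m`
(usually `diagonal s` or its compression), column samples are matrices `T : n × c`.
-/

open Matrix Finset

namespace A55

section alg

variable {m n a b c : Type*} [Fintype m] [Fintype n] [Fintype a] [Fintype b] [Fintype c]
  [DecidableEq m] [DecidableEq n] [DecidableEq a] [DecidableEq b] [DecidableEq c]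

/-- squared Euclidean norm -/
def sq (x : n → ℝ) : ℝ := ∑ i, x i ^ 2

/-- quadratic form -/
def qf (M : Matrix n n ℝ) (x : n → ℝ) : ℝ := x ⬝ᵥ (M *ᵥ x)

/-- `AᵀA + l` -/
def gram (A : Matrix m n ℝ) (l : ℝ) : Matrix n n ℝ := Aᵀ * A + l • (1 : Matrix n n ℝ)

/-- the noise part `G = l A (AᵀA + l)⁻¹` -/
noncomputable def noiseM (A : Matrix m n ℝ) (l : ℝ) : Matrix m n ℝ := l • (A * (gram A l)⁻¹)

/-- ridge leverage score of row `i` (column scores are `rho Aᵀ l`) -/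
noncomputable def rho (A : Matrix m n ℝ) (l : ℝ) (i : m) : ℝ := (A * (gram A l)⁻¹ * Aᵀ) i i

/-- `AᵀSᵀSA - AᵀA ∈ ± 1/4 (AᵀA + l)`.  Validity of a column sample `T` is `Valid Tᵀ Aᵀ l`. -/
def Valid (S : Matrix a m ℝ) (A : Matrix m n ℝ) (l : ℝ) : Prop :=
  ∀ x : n → ℝ, |sq (S *ᵥ (A *ᵥ x)) - sq (A *ᵥ x)| ≤ 1 / 4 * (sq (A *ᵥ x) + l * sq x)

/-- `|S G T|² ≤ C l` (transposed form) -/
def Noise (S : Matrix a m ℝ) (A : Matrix m n ℝ) (T : Matrix n c ℝ) (l C : ℝ) : Prop :=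
  ∀ x : a → ℝ, sq (Tᵀ *ᵥ ((noiseM A l)ᵀ *ᵥ (Sᵀ *ᵥ x))) ≤ C * l * sq x

/-- `Q` is symmetric and `(1-d) M⁻¹ ≤ Q ≤ (1+d) M⁻¹` -/
def IsSol (M Q : Matrix n n ℝ) (d : ℝ) : Prop :=
  Qᵀ = Q ∧ ∀ x, |qf Q x - qf M⁻¹ x| ≤ d * qf M⁻¹ x

/-- `Q` is symmetric and `α M⁻¹ ≤ Q ≤ β M⁻¹` -/
def IsPre (M Q : Matrix n n ℝ) (α β : ℝ) : Prop :=
  Qᵀ = Q ∧ ∀ x, α * qf M⁻¹ x ≤ qf Q x ∧ qf Q x ≤ β * qf M⁻¹ x

/-- the Woodbury transfer `l⁻¹ (1 - X Q Xᵀ)` -/
noncomputable def wood (X : Matrix m n ℝ) (l : ℝ) (Q : Matrix n n ℝ) : Matrix m m ℝ :=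
  l⁻¹ • (1 - X * Q * Xᵀ)

/-- `τ_k = T_k (θ/δ)`, `θ = (β+α)/2`, `δ = (β-α)/2` -/
noncomputable def chebT (α β : ℝ) : ℕ → ℝ
  | 0 => 1
  | 1 => (β + α) / (β - α)
  | k + 2 => 2 * ((β + α) / (β - α)) * chebT α β (k + 1) - chebT α β k

/-- numerators of the Chebyshev iteration: matrices `Y_k` with
`Q M Y_k = τ_k Q - T_k((θ - QM)/δ) Q` -/
noncomputable def chebY (M Q : Matrix n n ℝ) (α β : ℝ) : ℕ → Matrix n n ℝ
  | 0 => 0
  | 1 => (2 / (β - α)) • Q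
  | k + 2 => (2 * ((β + α) / (β - α))) • chebY M Q α β (k + 1) - chebY M Q α β k +
      (4 / (β - α)) • (Q * (chebT α β (k + 1) • (1 : Matrix n n ℝ) - M * chebY M Q α β (k + 1)))

/-- the Chebyshev accelerated solver of degree `k` -/
noncomputable def cheb (M Q : Matrix n n ℝ) (α β : ℝ) (k : ℕ) : Matrix n n ℝ :=
  (chebT α β k)⁻¹ • chebY M Q α β k

/-- at most `k` singular values of `M` are larger than `√t` -/
def Head (M : Matrix m n ℝ) (k : ℕ) (t : ℝ) : Prop :=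
  ∃ V : Submodule ℝ (n → ℝ), Module.finrank ℝ V ≤ k ∧
    ∀ x, (∀ v ∈ V, v ⬝ᵥ x = 0) → sq (M *ᵥ x) ≤ t * sq x

/-- polynomial form: `f_k(x) = τ_k - T_k((θ - x)/δ)`, `|T_k| ≤ 1` on `[α, β]` -/
noncomputable def chebF (α β : ℝ) : ℕ → ℝ → ℝ
  | 0, _ => 0
  | 1, x => 2 / (β - α) * x
  | k + 2, x => 2 * ((β + α) / (β - α)) * chebF α β (k + 1) x - chebF α β k x +
      4 / (β - α) * (x * (chebT α β (k + 1) - chebF α β (k + 1) x))

end alg

/-! ## the chain -/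

/-- chain data: matrices `X r : d (r+1) × d r`, ridges, lower constants, degrees, base solver -/
structure Chain where
  d : ℕ → ℕ
  X : (r : ℕ) → Matrix (Fin (d (r + 1))) (Fin (d r)) ℝ
  lam : ℕ → ℝ
  al : ℕ → ℝ
  be : ℝ
  deg : ℕ → ℕ
  g0 : Matrix (Fin (d 0)) (Fin (d 0)) ℝ

/-- the solvers of the chain -/
noncomputable def Chain.g (Θ : Chain) : (r : ℕ) → Matrix (Fin (Θ.d r)) (Fin (Θ.d r)) ℝ
  | 0 => Θ.g0
  | r + 1 => cheb (gram (Θ.X (r + 1)) (Θ.lam (r + 1))) (wood (Θ.X r) (Θ.lam r) (Θ.g r))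
      (Θ.al (r + 1)) Θ.be (Θ.deg (r + 1))

/-! ## samples and bits -/

/-- the sampling event with rate `4^(-e)`: the first `2 e` bits are all `1` -/
def hit {B : ℕ} (e : ℕ) (w : Fin B → Bool) : Prop := ∀ t : Fin B, (t : ℕ) < 2 * e → w t = true

instance {B : ℕ} (e : ℕ) (w : Fin B → Bool) : Decidable (hit e w) := by
  unfold hit; infer_instance

/-- the weight `2^e` if the coordinate is not bad and is hit, else `0` -/
noncomputable def wt {B : ℕ} (e : ℕ) (bad : Bool) (w : Fin B → Bool) : ℝ :=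
  if bad = false ∧ hit e w then 2 ^ e else 0

/-- sign of a bit -/
def sgn (b : Bool) : ℝ := if b then 1 else -1

/-- the fraction of the elements of a finite type with property `p` -/
noncomputable def frac {Ω : Type*} [Fintype Ω] (p : Ω → Prop) : ℝ :=
  open Classical in ((Finset.univ.filter p).card : ℝ) / Fintype.card Ω

end A55
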