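import Pool.Agent.Lib_helper50.A55.TDefs

/-!
# MP_a55cb8: conjugate gradients, the main program (definitions; helper50)
-/

open Matrix Finset

namespace A55

/-- conjugate gradients for `A Aᵀ y = b` (`x = Aᵀ y`): iterate, residual, direction -/
noncomputable def cgS {n : ℕ} (A : Matrix (Fin n) (Fin n) ℝ) (b : Fin n → ℝ) :
    ℕ → (Fin n → ℝ) × ((Fin n → ℝ) × (Fin n → ℝ))
  | 0 => (0, (b, Aᵀ *ᵥ b))
  | m + 1 =>
    ((cgS A b m).1 + (sq (cgS A b m).2.1 / sq (cgS A b m).2.2) • (cgS A b m).2.2,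
      ((cgS A b m).2.1 - (sq (cgS A b m).2.1 / sq (cgS A b m).2.2) • (A *ᵥ (cgS A b m).2.2),
        Aᵀ *ᵥ ((cgS A b m).2.1 -
            (sq (cgS A b m).2.1 / sq (cgS A b m).2.2) • (A *ᵥ (cgS A b m).2.2)) +
          (sq ((cgS A b m).2.1 -
              (sq (cgS A b m).2.1 / sq (cgS A b m).2.2) • (A *ᵥ (cgS A b m).2.2)) /
            sq (cgS A b m).2.1) • (cgS A b m).2.2))

/-- states of the conjugate gradient program: `(x, (r, p))` -/
abbrev CgT : Ty := .prod VecT (.prod VecT VecT)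

section

variable {mm : ℕ → ℕ} (Φ : Lib mm) (c : Cst)

/-- one step of conjugate gradients -/
noncomputable def cgStep (n : ℕ) (A0 : CooT.den) (s : CgT.den) : CgT.den :=
  let rr := Φ.dot (n, (s.2.1, s.2.1))
  let al := rr / Φ.dot (n, (s.2.2, s.2.2))
  let r := Φ.lin (n, ((1, s.2.1), (-al, Φ.mvC (n, (A0, s.2.2)))))
  (Φ.lin (n, ((1, s.1), (al, s.2.2))), (r,
    Φ.lin (n, ((1, Φ.mvC (n, (cooT A0, r))), (Φ.dot (n, (r, r)) / rr, s.2.2)))))

/-- conjugate gradients with `m` steps -/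
noncomputable def cgF (n : ℕ) (A0 : CooT.den) (b : VecT.den) (m : ℕ) : VecT.den :=
  (iterV (fun _ s => cgStep Φ n A0 s) ((fun _ => 0), (b, Φ.mvC (n, (cooT A0, b)))) m).1

/-- the whole algorithm; input `(x, (A0, (b, r)))` -/
noncomputable def mainF (y : (Ty.prod InT (.prod CooT (.prod VecT NArr))).den) : VecT.den :=
  if y.1.2.2.1 < y.1.1.2 then
    (if y.1.2.2.1 * y.1.1.2 < y.1.2.1 + 1 then algC Φ c y.1 y.2.1 y.2.2.1 y.2.2.2
    else cgF Φ y.1.1.1 y.2.1 y.2.2.1 (y.1.1.2 + y.1.2.2.1 * (y.1.2.2.2 + 1)))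
  else cgF Φ y.1.1.1 y.2.1 y.2.2.1 (y.1.1.2 + y.1.2.2.1 * (y.1.2.2.2 + 1))

/-- weight of the whole algorithm -/
def wMain (mm : ℕ → ℕ) (C e : ℕ) (c : Cst) (x : InT.den) : ℕ :=
  if x.2.2.1 < x.1.2 ∧ x.2.2.1 * x.1.2 ≤ x.2.1 then pl c x ^ e * wAlg mm C c x
  else (x.1.2 + x.2.2.1 * (x.2.2.2 + 1) + 1) * (x.2.1 + x.1.1 + 1)

end

end A55
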