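import Pool.Agent.Lib_helper50.A55.LibEx
import Pool.Agent.Lib_helper50.A55.B.T16
import Pool.Agent.Lib_helper50.A55.B.F1a
import Pool.Agent.Lib_helper50.A55.B.F1b
import Pool.Agent.Lib_helper50.A55.B.F4
import Pool.Agent.Lib_helper50.A55.B.F5
import Pool.Agent.Lib_helper50.A55.B.F6
import Pool.Agent.Lib_helper50.A55.B.F7
import Pool.Agent.Lib_helper50.A55.B.F8
import Pool.Agent.Lib_helper50.A55.B.F9

/-!
# MP_a55cb8: the final theorem (helper50)
-/

open Matrix Finset

namespace A55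

/-- squared norms and norms -/
theorem fin_nrm {n : ℕ} (x y : Fin n → ℝ) (q : ℕ) (ε : ℝ) (hε : (1 / 2 : ℝ) ^ q ≤ ε)
    (h : sq x ≤ (1 / 4) ^ q * sq y) : nrm x ≤ ε * nrm y := by
  have h1 : nrm x = Real.sqrt (sq x) := rfl
  have h2 : nrm y = Real.sqrt (sq y) := rfl
  have h3 : Real.sqrt ((1 / 4) ^ q * sq y) = (1 / 2) ^ q * Real.sqrt (sq y) := by
    rw [Real.sqrt_mul (by positivity)]
    congr 1
    rw [show (1 / 4 : ℝ) ^ q = ((1 / 2) ^ q) ^ 2 by rw [← pow_mul, mul_comm, pow_mul]; norm_num]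
    exact Real.sqrt_sq (by positivity)
  rw [h1, h2]
  calc Real.sqrt (sq x) ≤ Real.sqrt ((1 / 4) ^ q * sq y) := Real.sqrt_le_sqrt h
    _ = (1 / 2) ^ q * Real.sqrt (sq y) := h3
    _ ≤ ε * Real.sqrt (sq y) := mul_le_mul_of_nonneg_right hε (Real.sqrt_nonneg _)

/-- the accuracy -/
theorem fin_eps {ε : ℝ} (h0 : 0 < ε) :
    (1 / 2 : ℝ) ^ ⌈Real.logb 2 (1 / ε)⌉₊ ≤ ε := by
  have h2 : Real.logb 2 (1 / ε) ≤ (⌈Real.logb 2 (1 / ε)⌉₊ : ℝ) := Nat.le_ceil _
  have h3 : 1 / ε ≤ 2 ^ (⌈Real.logb 2 (1 / ε)⌉₊) := by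
    have := (Real.logb_le_iff_le_rpow (by norm_num : (1 : ℝ) < 2) (by positivity)).1 h2
    rwa [Real.rpow_natCast] at this
  rw [_root_.one_div_pow, div_le_comm₀ (by positivity) h0]
  exact h3

theorem fin_sval {n : ℕ} (A : Matrix (Fin n) (Fin n) ℝ) {i j : ℕ} (h : i ≤ j) (hj : j < n) :
    sval A j ≤ sval A i := by
  unfold sval
  rw [dif_pos hj, dif_pos (by omega)]
  apply Real.sqrt_le_sqrt
  apply (Matrix.isHermitian_conjTranspose_mul_self A).eigenvalues₀_antitone
  simpa using h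

/-- fractions and cardinalities -/
theorem fin_card {m : ℕ} (p q : (Fin m → Bool) → Prop) (h : frac (fun r => ¬ p r) ≤ 1 / 3)
    (hpq : ∀ r, p r → q r) :
    (2 / 3 : ℝ) * 2 ^ m ≤ (Nat.card {r : Fin m → Bool // q r} : ℝ) := by
  classical
  have h1 : ((univ.filter fun r : Fin m → Bool => ¬ p r).card : ℝ) / (2 ^ m : ℝ) ≤ 1 / 3 := by
    have : frac (fun r : Fin m → Bool => ¬ p r) =
        ((univ.filter fun r : Fin m → Bool => ¬ p r).card : ℝ) / (2 ^ m : ℝ) := by
      unfold frac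
      congr 1
      · congr 2
        ext r
        simp
      · simp
    rw [← this]
    exact h
  have h2 : ((univ.filter fun r : Fin m → Bool => ¬ p r).card : ℝ) ≤ 1 / 3 * 2 ^ m := by
    rwa [div_le_iff₀ (by positivity)] at h1
  have h3 : (univ.filter fun r : Fin m → Bool => p r).card +
      (univ.filter fun r : Fin m → Bool => ¬ p r).card = 2 ^ m := by
    rw [Finset.card_filter_add_card_filter_not]
    simp
  have h4 : (univ.filter fun r : Fin m → Bool => p r).card ≤
      (univ.filter fun r : Fin m → Bool => q r).card :=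
    card_le_card fun r hr => by
      simp only [mem_filter, mem_univ, true_and] at hr ⊢
      exact hpq r hr
  have h5 : Nat.card {r : Fin m → Bool // q r} = (univ.filter fun r : Fin m → Bool => q r).card := by
    rw [Nat.card_eq_fintype_card, Fintype.card_subtype]
  have h3' : ((univ.filter fun r : Fin m → Bool => p r).card : ℝ) +
      ((univ.filter fun r : Fin m → Bool => ¬ p r).card : ℝ) = 2 ^ m := by exact_mod_cast h3
  have h4' : ((univ.filter fun r : Fin m → Bool => p r).card : ℝ) ≤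
      ((univ.filter fun r : Fin m → Bool => q r).card : ℝ) := by exact_mod_cast h4
  rw [h5]
  linarith

theorem main_thm (w φ : ℝ) (h2 : 2 ≤ w) (h3 : w ≤ 3) (hφ : 0 < φ) (hφ6 : φ ≤ 1 / 6)
    (hM : ∃ (Mul : Tm MatT) (c : ℕ), IsMul Mul c w) : MainW w φ := by
  obtain ⟨Mul, cm, hMul⟩ := hM
  obtain ⟨mm, c0, hsq, hmm, ⟨Φ⟩⟩ := lib_exists Mul cm w h2 h3 hMul
  obtain ⟨ct0, hct⟩ := wAlg_num w φ h2 h3 hφ hφ6 Φ.C
  obtain ⟨c1, hc1, hBig⟩ := Big_exists (max ct0 20) 300 (4 * 300 + 4 * (max ct0 20) + 1000)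
    (max Φ.C 1000) (le_max_right _ _) le_rfl le_rfl
  obtain ⟨c, hc⟩ : ∃ c : Cst, c = ⟨c1, max ct0 20, 4 * 300 + 4 * (max ct0 20) + 1000, 300⟩ :=
    ⟨_, rfl⟩
  rw [← hc] at hBig
  have hcC : Φ.C ≤ c.c1 := by rw [hc]; exact le_trans (le_max_left _ _) hc1
  have hc1000 : 1000 ≤ c.c1 := by rw [hc]; exact le_trans (le_max_right _ _) hc1
  obtain ⟨hρ, hnum⟩ := hct c hBig (by rw [hc]; exact le_max_left _ _) hcC
  obtain ⟨e, hoc⟩ := main_oc Φ c hc1000 hcC hsq hρ
  obtain ⟨P, C1, hP⟩ := env_prog hoc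
  obtain ⟨C', hC'⟩ := main_num w φ h2 h3 hφ hφ6 Φ.C e c0 c hBig (hnum c0) C1
  refine ⟨P, C', ?_⟩
  intro n k N κ ε A b eN hdet hkn hsv hε0 hε1 m hm
  obtain ⟨hs1, hs2, hlow, hV⟩ := sval_facts A hdet k hkn
  obtain ⟨hnN, hNn⟩ := nnz_facts A hdet eN
  have hmono : sval A (n - 1) ≤ sval A k := fin_sval A (by omega) (by omega)
  have hκ1 : 1 ≤ κ := by
    by_contra hlt
    push Not at hlt
    nlinarith
  set κ' := ⌈κ⌉₊ with hκ'
  set q := ⌈Real.logb 2 (1 / ε)⌉₊ with hq
  have hκle : κ ≤ κ' := Nat.le_ceil κ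
  have hκ'1 : 1 ≤ κ' := by
    have : (1 : ℝ) ≤ κ' := hκ1.trans hκle
    exact_mod_cast this
  obtain ⟨x, hx⟩ : ∃ x : InT.den, x = ((n, k), (N, (κ', q))) := ⟨_, rfl⟩
  obtain ⟨hin1, hin2, hin3, hin4⟩ := inA_ok A eN
  obtain ⟨hb1, hb2⟩ := hC' mm n k N κ ε hmm hκ1 hkn hnN hNn hε0 hε1
  set barr : ℕ → ℝ := fun i => if h : i < n then b ⟨i, h⟩ else 0 with hbarr
  have hcost : ∀ r : Fin m → Bool, (P.eval (input k κ' q A b eN r)).1 =
      mainF Φ c (x, (inA A eN, (barr, bw r))) ∧
      (P.eval (input k κ' q A b eN r)).2 ≤ C1 * (wMain mm Φ.C e c x + 1) := by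
    intro r
    refine hP n k N κ' q m A b eN r (x, (inA A eN, (barr, bw r))) (by rw [hx]) ?_
    rw [hx]
    exact ⟨hin1, hin2, hκ'1, hkn, hnN⟩
  constructor
  · intro r
    have h5 := (hcost r).2
    refine le_trans ?_ hb1
    rw [hx] at h5
    exact_mod_cast h5
  · set xs := A⁻¹ *ᵥ b with hxs
    have hAxs : A *ᵥ xs = b := by
      rw [hxs, Matrix.mulVec_mulVec, Matrix.mul_nonsing_inv A hdet, Matrix.one_mulVec]
    have hbv : toV n barr = b := by
      funext i
      simp [toV, hbarr]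
    have hsg : sval A k ^ 2 ≤ (κ' : ℝ) ^ 2 * sval A (n - 1) ^ 2 := by
      rw [← mul_pow]
      refine pow_le_pow_left₀ hs2.le (hsv.trans ?_) 2
      exact mul_le_mul_of_nonneg_right hκle hs1.le
    have key : frac (fun r : Fin m → Bool =>
        ¬ OutOK x (by rw [hx]; exact xs) (mainF Φ c (x, (inA A eN, (barr, bw r))))) ≤ 1 / 3 := by
      subst hx
      by_cases hbr : κ' < k ∧ κ' * k ≤ N
      · have hI : InOK ((n, k), (N, (κ', q))) (inA A eN) barr A xs (sval A k ^ 2)
            (sval A (n - 1) ^ 2) :=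
          { Aok := hin1, len := hin2, simple := hin4, matA := hin3
            sol := by rw [hAxs]; exact hbv.symm
            lowA := hlow, headA := hV, sn_pos := by positivity, sg_pos := by positivity
            sg_le := hsg, h1 := hκ'1, h2 := hbr.1, h3 := hkn, h4 := hnN, h5 := hNn
            h6 := hbr.2 }
        have h6 := alg_frac Φ c ((n, k), (N, (κ', q))) (inA A eN) barr A xs (sval A k ^ 2)
          (sval A (n - 1) ^ 2) hBig hI (by rw [hc]; simp only; omega) m (by
            have := hb2.trans hm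
            exact_mod_cast this)
        refine le_trans (le_of_eq ?_) h6
        congr 1
        funext r
        have h7 : mainF Φ c (((n, k), (N, (κ', q))), (inA A eN, (barr, bw r))) =
            algC Φ c ((n, k), (N, (κ', q))) (inA A eN) barr (bw r) := by
          unfold mainF
          rw [if_pos hbr.1, if_pos (Nat.lt_succ_of_le hbr.2)]
        rw [h7]
        rfl
      · have h8 : ∀ r : Fin m → Bool, OutOK ((n, k), (N, (κ', q))) xs
            (mainF Φ c (((n, k), (N, (κ', q))), (inA A eN, (barr, bw r)))) := by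
          intro r
          have h7 : mainF Φ c (((n, k), (N, (κ', q))), (inA A eN, (barr, bw r))) =
              cgF Φ n (inA A eN) barr (k + κ' * (q + 1)) := by
            unfold mainF
            by_cases h9 : κ' < k
            · rw [if_pos h9, if_neg (by
                show ¬ κ' * k < N + 1
                intro h
                exact hbr ⟨h9, by omega⟩)]
            · rw [if_neg h9]
          rw [h7]
          show sq (toV n (cgF Φ n (inA A eN) barr (k + κ' * (q + 1))) - xs) ≤ (1 / 4) ^ q * sq xs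
          rw [cgF_val Φ n (inA A eN) hin1, hin3, hbv]
          obtain ⟨p, hp1, hp2, hp3⟩ := cg_poly A k κ' q (sval A k ^ 2) (sval A (n - 1) ^ 2)
            (by positivity) hκ'1 hsg hlow hV
          have h10 := cg_opt A hdet xs (k + κ' * (q + 1)) p hp1 hp2
          rw [hAxs] at h10
          exact h10.trans (hp3 xs)
        have h11 : frac (fun r : Fin m → Bool => ¬ OutOK ((n, k), (N, (κ', q))) xs
            (mainF Φ c (((n, k), (N, (κ', q))), (inA A eN, (barr, bw r))))) = 0 := by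
          have h12 : (fun r : Fin m → Bool => ¬ OutOK ((n, k), (N, (κ', q))) xs
            (mainF Φ c (((n, k), (N, (κ', q))), (inA A eN, (barr, bw r))))) =
              fun _ => False := by
            funext r
            simpa using h8 r
          rw [h12]
          unfold frac
          simp
        refine le_trans (le_of_eq ?_) (by norm_num : (0 : ℝ) ≤ 1 / 3)
        exact h11
    subst hx
    have := fin_card (p := fun r => OutOK ((n, k), (N, (κ', q))) xs
        (mainF Φ c (((n, k), (N, (κ', q))), (inA A eN, (barr, bw r)))))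
      (q := fun r => nrm (fun i : Fin n => (P.eval (input k κ' q A b eN r)).1 i - xs i) ≤
        ε * nrm xs) key (by
        intro r hr
        refine fin_nrm _ _ q ε (fin_eps hε0) ?_
        rw [(hcost r).1]
        exact hr)
    rw [Nat.card_eq_fintype_card] at this
    exact this

/-- the statement of the hand-in -/
theorem main_result (w φ : ℝ) (h2 : 2 ≤ w) (h3 : w ≤ 3) (hφ : 0 < φ) (hφ6 : φ ≤ 1 / 6)
    (h : w = 3 ∨ ∃ (Mul : Tm (.arr (.arr .real))) (c : ℕ), IsMul Mul c w) : MainW w φ := by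
  refine main_thm w φ h2 h3 hφ hφ6 ?_
  rcases h with h | h
  · subst h
    exact naive_mul
  · exact h

end A55
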