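import Pool.Agent.Lib_helper50.A55.FDefs
import Pool.Agent.Lib_helper50.A55.B.P1
import Pool.Agent.Lib_helper50.A55.B.P2
import Pool.Agent.Lib_helper50.A55.B.P3
import Pool.Agent.Lib_helper50.A55.B.P4
import Pool.Agent.Lib_helper50.A55.B.P5
import Pool.Agent.Lib_helper50.A55.B.P6
import Pool.Agent.Lib_helper50.A55.B.P7
import Pool.Agent.Lib_helper50.A55.B.P8
import Pool.Agent.Lib_helper50.A55.B.P9
import Pool.Agent.Lib_helper50.A55.B.P11
import Pool.Agent.Lib_helper50.A55.B.P12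
import Pool.Agent.Lib_helper50.A55.B.P13
import Pool.Agent.Lib_helper50.A55.B.P14
import Pool.Agent.Lib_helper50.A55.B.P15

/-!
# MP_a55cb8: the library of program blocks exists (helper50)
-/

open Matrix Finset

namespace A55

/-- the cost function of the multiplication program -/
noncomputable def mmW (c : ℕ) (w : ℝ) (m : ℕ) : ℕ := ⌊((c : ℝ) + 1) * (m + 1 : ℝ) ^ w⌋₊

theorem mmW_mono (c : ℕ) {w : ℝ} (hw : 2 ≤ w) : Monotone (mmW c w) := by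
  intro a b hab
  unfold mmW
  apply Nat.floor_le_floor
  have : (a : ℝ) ≤ b := by exact_mod_cast hab
  gcongr

theorem mmW_sq (c : ℕ) {w : ℝ} (hw : 2 ≤ w) (m : ℕ) : (m + 1) ^ 2 ≤ mmW c w m := by
  unfold mmW
  apply Nat.le_floor
  push_cast
  have h1 : (1 : ℝ) ≤ (m : ℝ) + 1 := by have := Nat.cast_nonneg (α := ℝ) m; linarith
  have h2 : ((m : ℝ) + 1) ^ (2 : ℝ) ≤ ((m : ℝ) + 1) ^ w := Real.rpow_le_rpow_of_exponent_le h1 hw
  rw [Real.rpow_two] at h2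
  have h3 : (0 : ℝ) ≤ c := Nat.cast_nonneg c
  nlinarith [sq_nonneg ((m : ℝ) + 1)]

theorem mmW_dbl (c : ℕ) {w : ℝ} (hw : 2 ≤ w) (m : ℕ) (hm : 1 ≤ m) :
    2 * mmW c w m ≤ mmW c w (2 * m) := by
  unfold mmW
  apply Nat.le_floor
  push_cast
  have hm1 : (1 : ℝ) ≤ m := by exact_mod_cast hm
  have h0 : (⌊((c : ℝ) + 1) * ((m : ℝ) + 1) ^ w⌋₊ : ℝ) ≤ ((c : ℝ) + 1) * ((m : ℝ) + 1) ^ w :=
    Nat.floor_le (by positivity)
  have h1 : (2 : ℝ) * ((m : ℝ) + 1) ^ w ≤ (2 * (m : ℝ) + 1) ^ w := by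
    have h2 : (3 / 2 : ℝ) * ((m : ℝ) + 1) ≤ 2 * (m : ℝ) + 1 := by linarith
    calc (2 : ℝ) * ((m : ℝ) + 1) ^ w ≤ (3 / 2 : ℝ) ^ w * ((m : ℝ) + 1) ^ w := by
          gcongr
          calc (2 : ℝ) ≤ (3 / 2 : ℝ) ^ (2 : ℝ) := by rw [Real.rpow_two]; norm_num
            _ ≤ (3 / 2 : ℝ) ^ w := Real.rpow_le_rpow_of_exponent_le (by norm_num) hw
      _ = ((3 / 2 : ℝ) * ((m : ℝ) + 1)) ^ w := by
          rw [Real.mul_rpow (by norm_num) (by positivity)]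
      _ ≤ _ := Real.rpow_le_rpow (by positivity) h2 (by linarith)
  have h3 : (0 : ℝ) ≤ c := Nat.cast_nonneg c
  nlinarith

theorem mmW_MulOK {Mul : Tm MatT} {c : ℕ} {w : ℝ} (h : IsMul Mul c w) : MulOK Mul (mmW c w) := by
  intro m ρ hρ
  obtain ⟨h1, h2⟩ := h m ρ hρ
  refine ⟨h1, Nat.le_floor (h2.trans ?_)⟩
  gcongr
  linarith

theorem lib_of_mul {Mul : Tm MatT} {mm : ℕ → ℕ} (hMul : MulOK Mul mm) (hmono : Monotone mm)
    (hsq : ∀ m, (m + 1) ^ 2 ≤ mm m) (hdbl : ∀ m, 1 ≤ m → 2 * mm m ≤ mm (2 * m)) :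
    Nonempty (Lib mm) := by
  obtain ⟨dot, hdot, vdot⟩ := dot_prog
  obtain ⟨lin, hlin, vlin⟩ := lin_prog
  obtain ⟨mvC, hmvC, vmvC⟩ := mvCoo_prog
  obtain ⟨mvD, hmvD, vmvD⟩ := mvDense_prog
  obtain ⟨mv, hmv, vmv⟩ := mvOp_prog
  obtain ⟨sk, hsk, vsk⟩ := sk_prog
  obtain ⟨mkU, hmkU, vmkU⟩ := mkU_prog
  obtain ⟨mkOp, hmkOp, vmkOp⟩ := mkOp_prog
  obtain ⟨rates, hrates, vrates⟩ := rates_prog
  obtain ⟨bad, hbad, vbad⟩ := bad_prog
  obtain ⟨smp, hsmp, vsmp⟩ := sample_prog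
  obtain ⟨sgns, hsgns, vsgns⟩ := signs_prog
  obtain ⟨C1, score, hscore, vscore⟩ := score_prog
  obtain ⟨C2, clean, hclean, vclean⟩ := clean_prog
  obtain ⟨C3, outer, houter, vouter⟩ := outer_prog
  obtain ⟨gamma, hgamma, vgamma⟩ := gamma_prog Mul mm hMul hmono hsq hdbl
  obtain ⟨base, hbase, vbase⟩ := base_prog Mul mm hMul hmono hsq hdbl
  have hC1 : C1 ≤ C1 + C2 + C3 + 1 := by omega
  have hC2 : C2 ≤ C1 + C2 + C3 + 1 := by omega
  have hC3 : C3 ≤ C1 + C2 + C3 + 1 := by omega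
  exact ⟨{
    dot := dot, dot_oc := hdot, dot_eq := vdot
    lin := lin, lin_oc := hlin, lin_eq := vlin
    mvC := mvC, mvC_oc := hmvC, mvC_eq := vmvC
    mvD := mvD, mvD_oc := hmvD, mvD_eq := vmvD
    mv := mv, mv_oc := hmv, mv_eq := vmv
    sk := sk, sk_oc := hsk, sk_eq := vsk
    mkU := mkU, mkU_oc := hmkU, mkU_eq := vmkU
    mkOp := mkOp, mkOp_oc := hmkOp, mkOp_eq := vmkOp
    rates := rates, rates_oc := hrates, rates_eq := vrates
    bad := bad, bad_oc := hbad, bad_eq := vbad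
    smp := smp, smp_oc := hsmp
    smp_eq := fun n B h e bad bits hb => ⟨(vsmp n B h e bad bits hb).1,
      (vsmp n B h e bad bits hb).2.1, (vsmp n B h e bad bits hb).2.2.1⟩
    smp_ne := fun n B h e bad bits hb => (vsmp n B h e bad bits hb).2.2.2
    sgns := sgns, sgns_oc := hsgns, sgns_eq := vsgns
    C := C1 + C2 + C3 + 1
    C_pos := by omega
    score := score
    score_cp := hscore.cost _ fun _ x _ => by
      have := chCost_mono hC1 x.2.1 x.1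
      gcongr
    score_eq := vscore
    clean := clean
    clean_cp := hclean.cost _ fun _ x _ => by
      have := chCost_mono hC2 x.2.1 x.1
      gcongr
    clean_eq := vclean
    outer := outer
    outer_cp := houter.cost _ fun _ x _ => by
      have := chCost_mono hC3 x.2.1.1 x.1.1
      gcongr
    outer_eq := vouter
    gamma := gamma, gamma_oc := hgamma, gamma_eq := vgamma
    base := fun z => ((z.1.2.2, z.1.2.1), (z.2.2.2, (base z).2.2))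
    base_oc := OC.pair (OC.pair (OC.snd (OC.snd (OC.fst OC.id)))
        (OC.fst (OC.snd (OC.fst OC.id))))
      (OC.pair (OC.snd (OC.snd (OC.snd OC.id))) (OC.snd (OC.snd hbase)))
    base_eq := by
      intro h s k q lam x fr fc Om h1 h2 h3 h4 h5 h6 X Y y hX hY hy
      obtain ⟨e1, e2, e3⟩ := vbase h s k q lam x fr fc Om h1 h2 h3 h4 h5 h6 X Y _ hX hY rfl
      subst hy
      exact ⟨rfl, rfl, e3⟩
    base_shape := fun h s k q lam x fr fc Om => ⟨rfl, rfl⟩ }⟩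

theorem lib_exists (Mul : Tm MatT) (c : ℕ) (w : ℝ) (h2 : 2 ≤ w) (_h3 : w ≤ 3)
    (h : IsMul Mul c w) : ∃ (mm : ℕ → ℕ) (c0 : ℕ), (∀ m, (m + 1) ^ 2 ≤ mm m) ∧
      (∀ m, (mm m : ℝ) ≤ c0 * (m + 1 : ℝ) ^ w) ∧ Nonempty (Lib mm) := by
  refine ⟨mmW c w, c + 1, mmW_sq c h2, fun m => ?_,
    lib_of_mul (mmW_MulOK h) (mmW_mono c h2) (mmW_sq c h2) (mmW_dbl c h2)⟩
  unfold mmW
  refine (Nat.floor_le (by positivity)).trans ?_
  push_cast
  exact le_rfl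

end A55
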