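import Pool.Agent.Lib_helper50.A55.Cp

/-!
# Programs with cost `O(w)`  (helper50)

`OC s t V F w`: the function `F : s.den → t.den` is computed, on the inputs with `V x`, by one
program text with cost at most `C * (w x + 1)`.
-/

open Finset

namespace A55

/-- computed on `V` with cost `O(w + 1)` -/
def OC (s t : Ty) (V : s.den → Prop) (F : s.den → t.den) (w : s.den → ℕ) : Prop :=
  ∃ C : ℕ, Cp s t (fun _ x => V x) F (fun x => C * (w x + 1))

variable {s t u v : Ty} {V : s.den → Prop} {w : s.den → ℕ}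

theorem OC.of_Cp {F : s.den → t.den} {c : s.den → ℕ} (K : ℕ)
    (h : Cp s t (fun _ x => V x) F c) (hc : ∀ x, V x → c x ≤ K * (w x + 1)) : OC s t V F w :=
  ⟨K, h.cost _ fun _ x hx => hc x hx⟩

theorem OC.le {F : s.den → t.den} {w' : s.den → ℕ} (h : OC s t V F w') (K : ℕ)
    (hw : ∀ x, V x → w' x ≤ K * (w x + 1)) : OC s t V F w := by
  obtain ⟨C, h⟩ := h
  refine OC.of_Cp (C * (K + 1)) h fun x hx => ?_
  have h1 := hw x hx
  calc C * (w' x + 1) ≤ C * (K * (w x + 1) + (w x + 1)) := by gcongr; omega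
    _ = _ := by ring

theorem OC.weaken {V' : s.den → Prop} {F : s.den → t.den} (h : OC s t V F w)
    (hV : ∀ x, V' x → V x) : OC s t V' F w := by
  obtain ⟨C, h⟩ := h
  exact ⟨C, h.weaken fun _ x hx => hV x hx⟩

theorem OC.congr {F G : s.den → t.den} (h : OC s t V F w) (hF : ∀ x, V x → F x = G x) :
    OC s t V G w := by
  obtain ⟨C, h⟩ := h
  exact ⟨C, h.congr fun _ x hx => hF x hx⟩

theorem OC.const {F : s.den → t.den} (k : ℕ) (h : Cp s t (fun _ x => V x) F (fun _ => k)) :
    OC s t V F w :=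
  OC.of_Cp k h fun x _ => by nlinarith [Nat.zero_le (k * w x)]

/-- two ingredients -/
theorem OC.of_two {s₁ s₂ t₁ t₂ : Ty} {V₁ : s₁.den → Prop} {V₂ : s₂.den → Prop}
    {w₁ : s₁.den → ℕ} {w₂ : s₂.den → ℕ} {F : s₁.den → t₁.den} {G : s₂.den → t₂.den}
    {H : s.den → t.den} (hF : OC s₁ t₁ V₁ F w₁) (hG : OC s₂ t₂ V₂ G w₂)
    (h : ∀ C D : ℕ, 1 ≤ C → 1 ≤ D → Cp s₁ t₁ (fun _ x => V₁ x) F (fun x => C * (w₁ x + 1)) →
      Cp s₂ t₂ (fun _ x => V₂ x) G (fun x => D * (w₂ x + 1)) → OC s t V H w) :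
    OC s t V H w := by
  obtain ⟨C, hC⟩ := hF
  obtain ⟨D, hD⟩ := hG
  refine h (C + 1) (D + 1) (by omega) (by omega) (hC.cost _ fun _ x _ => ?_)
    (hD.cost _ fun _ x _ => ?_) <;> nlinarith

theorem OC.id : OC s s V (fun x => x) w := OC.const 1 Cp.id

theorem OC.comp {W : u.den → Prop} {w' : u.den → ℕ} {F : s.den → u.den} {G : u.den → t.den}
    (hG : OC u t W G w') (hF : OC s u V F w) (hW : ∀ x, V x → W (F x)) (K : ℕ)
    (hw : ∀ x, V x → w' (F x) ≤ K * (w x + 1)) : OC s t V (fun x => G (F x)) w := by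
  refine OC.of_two hG hF fun C D hC hD h1 h2 => ?_
  refine OC.of_Cp (1 + D + C * (K + 1)) (Cp.comp h1 h2 fun _ x hx => hW x hx) fun x hx => ?_
  have h3 := hw x hx
  have h4 : C * (w' (F x) + 1) ≤ C * (K + 1) * (w x + 1) := by
    calc C * (w' (F x) + 1) ≤ C * (K * (w x + 1) + (w x + 1)) := by gcongr; omega
      _ = _ := by ring
  nlinarith

theorem OC.pair {F : s.den → t.den} {G : s.den → u.den} (hF : OC s t V F w)
    (hG : OC s u V G w) : OC s (.prod t u) V (fun x => (F x, G x)) w := by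
  refine OC.of_two hF hG fun C D hC hD h1 h2 => OC.of_Cp (1 + C + D) (Cp.pair h1 h2)
    fun x hx => ?_
  nlinarith

theorem OC.fst {F : s.den → (Ty.prod t u).den} (hF : OC s (.prod t u) V F w) :
    OC s t V (fun x => (F x).1) w := by
  obtain ⟨C, h⟩ := hF
  exact OC.of_Cp (1 + C) (Cp.fst h) fun x _ => by nlinarith

theorem OC.snd {F : s.den → (Ty.prod t u).den} (hF : OC s (.prod t u) V F w) :
    OC s u V (fun x => (F x).2) w := by
  obtain ⟨C, h⟩ := hF
  exact OC.of_Cp (1 + C) (Cp.snd h) fun x _ => by nlinarith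

theorem OC.nlit (m : ℕ) : OC s .nat V (fun _ => m) w := OC.const 1 (Cp.nlit m)

theorem OC.nadd {F G : s.den → ℕ} (hF : OC s .nat V F w) (hG : OC s .nat V G w) :
    OC s .nat V (fun x => F x + G x) w := by
  refine OC.of_two hF hG fun C D hC hD h1 h2 => OC.of_Cp (1 + C + D) (Cp.nadd h1 h2)
    fun x hx => ?_
  nlinarith

theorem OC.nsub {F G : s.den → ℕ} (hF : OC s .nat V F w) (hG : OC s .nat V G w) :
    OC s .nat V (fun x => F x - G x) w := by
  refine OC.of_two hF hG fun C D hC hD h1 h2 => OC.of_Cp (1 + C + D) (Cp.nsub h1 h2)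
    fun x hx => ?_
  nlinarith

theorem OC.nmul {F G : s.den → ℕ} (hF : OC s .nat V F w) (hG : OC s .nat V G w) :
    OC s .nat V (fun x => F x * G x) w := by
  refine OC.of_two hF hG fun C D hC hD h1 h2 => OC.of_Cp (1 + C + D) (Cp.nmul h1 h2)
    fun x hx => ?_
  nlinarith

theorem OC.npow {F : s.den → ℕ} (hF : OC s .nat V F w) (k : ℕ) :
    OC s .nat V (fun x => F x ^ k) w := by
  induction k with
  | zero => exact (OC.nlit 1).congr fun x _ => by rw [pow_zero]
  | succ k ih => exact (ih.nmul hF).congr fun x _ => by rw [pow_succ]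

theorem OC.cast {F : s.den → ℕ} (hF : OC s .nat V F w) :
    OC s .real V (fun x => ((F x : ℕ) : ℝ)) w := by
  obtain ⟨C, h⟩ := hF
  exact OC.of_Cp (1 + C) (Cp.cast h) fun x _ => by nlinarith

theorem OC.rnat (m : ℕ) : OC s .real V (fun _ => (m : ℝ)) w := (OC.nlit m).cast

theorem OC.r0 : OC s .real V (fun _ => (0 : ℝ)) w :=
  (OC.rnat 0).congr fun _ _ => by norm_num

theorem OC.r1 : OC s .real V (fun _ => (1 : ℝ)) w :=
  (OC.rnat 1).congr fun _ _ => by norm_num

theorem OC.rofNat (m : ℕ) [m.AtLeastTwo] : OC s .real V (fun _ => (OfNat.ofNat m : ℝ)) w :=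
  (OC.rnat (OfNat.ofNat m)).congr fun _ _ => by norm_cast

theorem OC.add {F G : s.den → ℝ} (hF : OC s .real V F w) (hG : OC s .real V G w) :
    OC s .real V (fun x => F x + G x) w := by
  refine OC.of_two hF hG fun C D hC hD h1 h2 => OC.of_Cp (1 + C + D) (Cp.add h1 h2)
    fun x hx => ?_
  nlinarith

theorem OC.sub {F G : s.den → ℝ} (hF : OC s .real V F w) (hG : OC s .real V G w) :
    OC s .real V (fun x => F x - G x) w := by
  refine OC.of_two hF hG fun C D hC hD h1 h2 => OC.of_Cp (1 + C + D) (Cp.sub h1 h2)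
    fun x hx => ?_
  nlinarith

theorem OC.mul {F G : s.den → ℝ} (hF : OC s .real V F w) (hG : OC s .real V G w) :
    OC s .real V (fun x => F x * G x) w := by
  refine OC.of_two hF hG fun C D hC hD h1 h2 => OC.of_Cp (1 + C + D) (Cp.mul h1 h2)
    fun x hx => ?_
  nlinarith

theorem OC.div {F G : s.den → ℝ} (hF : OC s .real V F w) (hG : OC s .real V G w) :
    OC s .real V (fun x => F x / G x) w := by
  refine OC.of_two hF hG fun C D hC hD h1 h2 => OC.of_Cp (1 + C + D) (Cp.div h1 h2)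
    fun x hx => ?_
  nlinarith

theorem OC.neg {F : s.den → ℝ} (hF : OC s .real V F w) : OC s .real V (fun x => - F x) w :=
  (OC.sub OC.r0 hF).congr fun x _ => by ring

theorem OC.inv {F : s.den → ℝ} (hF : OC s .real V F w) : OC s .real V (fun x => (F x)⁻¹) w :=
  (OC.div OC.r1 hF).congr fun x _ => by rw [one_div]

theorem OC.rpow {F : s.den → ℝ} (hF : OC s .real V F w) (k : ℕ) :
    OC s .real V (fun x => F x ^ k) w := by
  induction k with
  | zero => exact OC.r1.congr fun x _ => by rw [pow_zero]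
  | succ k ih => exact (ih.mul hF).congr fun x _ => by rw [pow_succ]

theorem OC.ifN {A B : s.den → ℕ} {F G : s.den → t.den} (hA : OC s .nat V A w)
    (hB : OC s .nat V B w) (hF : OC s t (fun x => V x ∧ A x < B x) F w)
    (hG : OC s t (fun x => V x ∧ ¬ A x < B x) G w) :
    OC s t V (fun x => if A x < B x then F x else G x) w := by
  refine OC.of_two hA hB fun a b ha hb h1 h2 => OC.of_two hF hG fun c d hc hd h3 h4 => ?_
  refine OC.of_Cp (1 + a + b + c + d) (Cp.ifN h1 h2 h3 h4) fun x hx => ?_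
  split_ifs <;> nlinarith

open Classical in
theorem OC.ifLt {A B : s.den → ℝ} {F G : s.den → t.den} (hA : OC s .real V A w)
    (hB : OC s .real V B w) (hF : OC s t (fun x => V x ∧ A x < B x) F w)
    (hG : OC s t (fun x => V x ∧ ¬ A x < B x) G w) :
    OC s t V (fun x => if A x < B x then F x else G x) w := by
  refine OC.of_two hA hB fun a b ha hb h1 h2 => OC.of_two hF hG fun c d hc hd h3 h4 => ?_
  refine OC.of_Cp (1 + a + b + c + d) (Cp.ifLt h1 h2 h3 h4) fun x hx => ?_
  split_ifs <;> nlinarith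

theorem OC.nmin {F G : s.den → ℕ} (hF : OC s .nat V F w) (hG : OC s .nat V G w) :
    OC s .nat V (fun x => min (F x) (G x)) w :=
  (OC.ifN hF hG (hF.weaken fun _ h => h.1) (hG.weaken fun _ h => h.1)).congr fun x _ => by
    split_ifs with h
    · exact (min_eq_left h.le).symm
    · exact (min_eq_right (not_lt.1 h)).symm

theorem OC.nmax {F G : s.den → ℕ} (hF : OC s .nat V F w) (hG : OC s .nat V G w) :
    OC s .nat V (fun x => max (F x) (G x)) w :=
  (OC.ifN hF hG (hG.weaken fun _ h => h.1) (hF.weaken fun _ h => h.1)).congr fun x _ => by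
    split_ifs with h
    · exact (max_eq_right h.le).symm
    · exact (max_eq_left (not_lt.1 h)).symm

/-- test for equality of natural numbers -/
theorem OC.ifEq {A B : s.den → ℕ} {F G : s.den → t.den} (hA : OC s .nat V A w)
    (hB : OC s .nat V B w) (hF : OC s t V F w) (hG : OC s t V G w) :
    OC s t V (fun x => if A x = B x then F x else G x) w := by
  refine (OC.ifN hA hB (hG.weaken fun _ h => h.1)
    (OC.ifN (hB.weaken fun _ h => h.1) (hA.weaken fun _ h => h.1)
      (hG.weaken fun _ h => h.1.1) (hF.weaken fun _ h => h.1.1))).congr fun x _ => ?_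
  rcases lt_trichotomy (A x) (B x) with h | h | h
  · rw [if_pos h, if_neg (by omega)]
  · rw [if_neg (by omega), if_neg (by omega), if_pos h]
  · rw [if_neg (by omega), if_pos h, if_neg (by omega)]

/-- local definition marker -/
def letV {α β : Type} (a : α) (f : α → β) : β := f a

theorem letV_eq {α β : Type} (a : α) (f : α → β) : letV a f = f a := rfl

/-- local definitions -/
theorem OC.let_ {A : s.den → u.den} {B : s.den → u.den → t.den}
    {w' : (Ty.prod s u).den → ℕ} (hA : OC s u V A w)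
    (hB : OC (.prod s u) t (fun p => V p.1 ∧ p.2 = A p.1) (fun p => B p.1 p.2) w') (K : ℕ)
    (hw : ∀ x, V x → w' (x, A x) ≤ K * (w x + 1)) :
    OC s t V (fun x => letV (A x) (B x)) w := by
  refine OC.of_two hA hB fun C D hC hD h1 h2 => ?_
  refine OC.of_Cp (3 + C + D * (K + 1)) (Cp.let_ (B := B) h1 h2) fun x hx => ?_
  have h3 := hw x hx
  have h4 : D * (w' (x, A x) + 1) ≤ D * (K + 1) * (w x + 1) := by
    calc D * (w' (x, A x) + 1) ≤ D * (K * (w x + 1) + (w x + 1)) := by gcongr; omega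
      _ = _ := by ring
  nlinarith

theorem OC.get {A : s.den → (Ty.arr t).den} {I : s.den → ℕ} (hA : OC s (.arr t) V A w)
    (hI : OC s .nat V I w) : OC s t V (fun x => A x (I x)) w := by
  refine OC.of_two hA hI fun C D hC hD h1 h2 => OC.of_Cp (1 + C + D) (Cp.get h1 h2)
    fun x hx => ?_
  nlinarith

theorem OC.upd {A : s.den → (Ty.arr t).den} {I : s.den → ℕ} {X : s.den → t.den}
    (hA : OC s (.arr t) V A w) (hI : OC s .nat V I w) (hX : OC s t V X w) :
    OC s (.arr t) V (fun x => Function.update (A x) (I x) (X x)) w := by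
  obtain ⟨E, h3⟩ := hX
  refine OC.of_two hA hI fun C D hC hD h1 h2 => OC.of_Cp (1 + C + D + E) (Cp.upd h1 h2 h3)
    fun x hx => ?_
  nlinarith

theorem OC.tab {N : s.den → ℕ} {F : s.den → ℕ → t.den} {w' : (Ty.prod s .nat).den → ℕ}
    (hN : OC s .nat V N w)
    (hF : OC (.prod s .nat) t (fun p => V p.1 ∧ p.2 < N p.1) (fun p => F p.1 p.2) w') (K : ℕ)
    (hw : ∀ x, V x → ∑ j ∈ range (N x), (w' (x, j) + 1) ≤ K * (w x + 1)) :
    OC s (.arr t) V (fun x => tabV t (N x) (F x)) w := by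
  refine OC.of_two hN hF fun C D hC hD h1 h2 => ?_
  refine OC.of_Cp (1 + C + (4 + D) * K) (Cp.tab (F := F) h1 h2) fun x hx => ?_
  have h3 := hw x hx
  have h4 : ∑ j ∈ range (N x), (4 + D * (w' (x, j) + 1)) ≤
      (4 + D) * ∑ j ∈ range (N x), (w' (x, j) + 1) := by
    rw [Finset.mul_sum]
    exact sum_le_sum fun j _ => by nlinarith
  have h5 : (4 + D) * ∑ j ∈ range (N x), (w' (x, j) + 1) ≤ (4 + D) * (K * (w x + 1)) :=
    Nat.mul_le_mul_left _ h3
  nlinarith

theorem OC.iter {N : s.den → ℕ} {A : s.den → t.den} {B : s.den → ℕ → t.den → t.den}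
    {w' : (Ty.prod s (.prod .nat t)).den → ℕ} (hN : OC s .nat V N w) (hA : OC s t V A w)
    (hB : OC (.prod s (.prod .nat t)) t
      (fun p => V p.1 ∧ p.2.1 < N p.1 ∧ p.2.2 = iterV (B p.1) (A p.1) p.2.1)
      (fun p => B p.1 p.2.1 p.2.2) w') (K : ℕ)
    (hw : ∀ x, V x → ∑ j ∈ range (N x), (w' (x, j, iterV (B x) (A x) j) + 1) ≤
      K * (w x + 1)) :
    OC s t V (fun x => iterV (B x) (A x) (N x)) w := by
  obtain ⟨E, h0⟩ := hA
  refine OC.of_two hN hB fun C D hC hD h1 h2 => ?_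
  refine OC.of_Cp (1 + C + E + (7 + D) * K) (Cp.iter (B := B) h1 h0 h2) fun x hx => ?_
  have h3 := hw x hx
  have h4 : ∑ j ∈ range (N x), (7 + D * (w' (x, j, iterV (B x) (A x) j) + 1)) ≤
      (7 + D) * ∑ j ∈ range (N x), (w' (x, j, iterV (B x) (A x) j) + 1) := by
    rw [Finset.mul_sum]
    exact sum_le_sum fun j _ => by nlinarith
  have h5 : (7 + D) * ∑ j ∈ range (N x), (w' (x, j, iterV (B x) (A x) j) + 1) ≤
      (7 + D) * (K * (w x + 1)) := Nat.mul_le_mul_left _ h3
  nlinarith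

/-- a loop with a body of cost `O(1)` on an unrestricted state -/
theorem OC.iter0 {N : s.den → ℕ} {A : s.den → t.den} {B : s.den → ℕ → t.den → t.den}
    (hN : OC s .nat V N w) (hA : OC s t V A w)
    (hB : OC (.prod s (.prod .nat t)) t (fun p => V p.1) (fun p => B p.1 p.2.1 p.2.2)
      (fun _ => 0)) (K : ℕ) (hw : ∀ x, V x → N x ≤ K * (w x + 1)) :
    OC s t V (fun x => iterV (B x) (A x) (N x)) w :=
  OC.iter hN hA (hB.weaken fun _ h => h.1) K fun x hx => by simpa using hw x hx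

/-- an array with entries of cost `O(1)` -/
theorem OC.tab0 {N : s.den → ℕ} {F : s.den → ℕ → t.den} (hN : OC s .nat V N w)
    (hF : OC (.prod s .nat) t (fun p => V p.1) (fun p => F p.1 p.2) (fun _ => 0)) (K : ℕ)
    (hw : ∀ x, V x → N x ≤ K * (w x + 1)) :
    OC s (.arr t) V (fun x => tabV t (N x) (F x)) w :=
  OC.tab hN (hF.weaken fun _ h => h.1) K fun x hx => by simpa using hw x hx

/-- sums `f 0 + ... + f (n-1)` -/
theorem OC.sum {N : s.den → ℕ} {F : s.den → ℕ → ℝ} {w' : (Ty.prod s .nat).den → ℕ}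
    (hN : OC s .nat V N w)
    (hF : OC (.prod s .nat) .real (fun p => V p.1 ∧ p.2 < N p.1) (fun p => F p.1 p.2) w')
    (K : ℕ) (hw : ∀ x, V x → ∑ j ∈ range (N x), (w' (x, j) + 1) ≤ K * (w x + 1)) :
    OC s .real V (fun x => ∑ i ∈ range (N x), F x i) w := by
  have h1 : OC (.prod s (.prod .nat .real)) .real
      (fun p => V p.1 ∧ p.2.1 < N p.1 ∧
        p.2.2 = iterV (fun i acc => acc + F p.1 i) 0 p.2.1)
      (fun p => p.2.2 + F p.1 p.2.1) (fun p => w' (p.1, p.2.1)) :=
    OC.add (OC.snd (OC.snd OC.id))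
      (OC.comp (s := .prod s (.prod .nat .real)) (F := fun p => (p.1, p.2.1)) hF
        (OC.pair (OC.fst OC.id) (OC.fst (OC.snd OC.id))) (fun p hp => ⟨hp.1, hp.2.1⟩) 1
        fun p _ => by omega)
  refine (OC.iter (B := fun x i acc => acc + F x i) hN OC.r0 h1 K fun x hx => hw x hx).congr
    fun x _ => ?_
  have : ∀ m, iterV (fun i acc => acc + F x i) 0 m = ∑ i ∈ range m, F x i := by
    intro m
    induction m with
    | zero => simp
    | succ m ih => rw [iterV_succ, ih, sum_range_succ]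
  exact this _

/-- the default value of a type -/
theorem OC.dflt (t : Ty) : ∀ {s : Ty} {V : s.den → Prop} {w : s.den → ℕ},
    OC s t V (fun _ => t.default) w := by
  induction t with
  | nat => exact OC.nlit 0
  | real => exact OC.r0
  | arr t ih =>
    intro s V w
    refine (OC.tab0 (F := fun _ _ => t.default) (OC.nlit 0) ih 0 fun _ _ => by simp).congr
      fun x _ => ?_
    funext i
    rw [tabV_ge (Nat.zero_le _)]
    rfl
  | prod a b iha ihb => exact OC.pair iha ihb

end A55
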