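import Pool.Agent.Lib_helper50.A55.Oc

/-!
# MP_a55cb8: data types of the program layer (helper50)

Everything is an array; matrices and vectors are read off arrays by `toM`, `toV`.
-/

open Matrix Finset

namespace A55

abbrev VecT : Ty := .arr .real
abbrev MatT : Ty := .arr VecT
abbrev NArr : Ty := .arr .nat
/-- sparse lists: length, row indices, column indices, values -/
abbrev CooT : Ty := .prod .nat (.prod NArr (.prod NArr VecT))
/-- operators `M1 - M2 Γ M3`: `((a, c), ((m1, m2), ((M1, M2), (M3, Γ))))` -/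
abbrev OpT : Ty := .prod (.prod .nat .nat) (.prod (.prod .nat .nat)
  (.prod (.prod CooT CooT) (.prod CooT MatT)))
/-- operators with a flag: flag `0`: the operator, otherwise its transpose -/
abbrev FOpT : Ty := .prod .nat OpT
/-- samples: number of kept indices, position `+1` (or `0` = dropped), weights, heavy flags of
the kept indices -/
abbrev SDT : Ty := .prod .nat (.prod NArr (.prod VecT NArr))
/-- base data: `((q, k'), (Ω, (Z1, Z2)))` -/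
abbrev BaseT : Ty := .prod (.prod .nat .nat) (.prod CooT (.prod MatT MatT))
/-- chain data: operators, ridges, lower constants, degrees, upper constant, base data -/
abbrev ChT : Ty := .prod (.arr FOpT) (.prod (.prod VecT VecT) (.prod NArr (.prod .real BaseT)))

/-- the vector read off an array -/
def toV (n : ℕ) (x : ℕ → ℝ) : Fin n → ℝ := fun i => x i
/-- the matrix read off an array of arrays -/
def toM (a c : ℕ) (X : ℕ → ℕ → ℝ) : Matrix (Fin a) (Fin c) ℝ := fun i j => X i j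

/-! ## sparse lists -/

def cooLen (x : CooT.den) : ℕ := x.1
/-- entries of the matrix of a sparse list -/
def cooA (x : CooT.den) (i j : ℕ) : ℝ :=
  ∑ e ∈ range x.1, if x.2.1 e = i ∧ x.2.2.1 e = j then x.2.2.2 e else 0
/-- all indices are in range -/
def CooOK (a c : ℕ) (x : CooT.den) : Prop := ∀ e < x.1, x.2.1 e < a ∧ x.2.2.1 e < c
/-- number of entries in row `i` -/
def rowCnt (x : CooT.den) (i : ℕ) : ℕ := ((range x.1).filter fun e => x.2.1 e = i).card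
/-- number of entries in column `j` -/
def colCnt (x : CooT.den) (j : ℕ) : ℕ := ((range x.1).filter fun e => x.2.2.1 e = j).card
/-- the transposed list -/
def cooT (x : CooT.den) : CooT.den := (x.1, (x.2.2.1, (x.2.1, x.2.2.2)))

/-! ## operators -/

def opR (x : OpT.den) : ℕ := x.1.1
def opC (x : OpT.den) : ℕ := x.1.2
def opA (x : OpT.den) (i j : ℕ) : ℝ :=
  cooA x.2.2.1.1 i j - ∑ p ∈ range x.2.1.1, ∑ r ∈ range x.2.1.2,
    cooA x.2.2.1.2 i p * x.2.2.2.2 p r * cooA x.2.2.2.1 r j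
def OpOK (x : OpT.den) : Prop :=
  CooOK x.1.1 x.1.2 x.2.2.1.1 ∧ CooOK x.1.1 x.2.1.1 x.2.2.1.2 ∧ CooOK x.2.1.2 x.1.2 x.2.2.2.1
def opSize (x : OpT.den) : ℕ :=
  x.1.1 + x.1.2 + x.2.2.1.1.1 + x.2.2.1.2.1 + x.2.2.2.1.1 + (x.2.1.1 + 1) * (x.2.1.2 + 1)

def fopR (x : FOpT.den) : ℕ := if x.1 = 0 then opR x.2 else opC x.2
def fopC (x : FOpT.den) : ℕ := if x.1 = 0 then opC x.2 else opR x.2
def fopA (x : FOpT.den) (i j : ℕ) : ℝ := if x.1 = 0 then opA x.2 i j else opA x.2 j i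
/-- the transposed flagged operator -/
def fopT (x : FOpT.den) : FOpT.den := (1 - x.1, x.2)
/-- the matrix of a flagged operator -/
def fopM (x : FOpT.den) : Matrix (Fin (fopR x)) (Fin (fopC x)) ℝ := toM _ _ (fopA x)

/-! ## samples -/

/-- entries of the sampling matrix (`a × n`) -/
def sdA (x : SDT.den) (p i : ℕ) : ℝ := if x.2.1 i = p + 1 then x.2.2.1 i else 0
/-- the weight of index `i` -/
def sdW (x : SDT.den) (i : ℕ) : ℝ := if x.2.1 i = 0 then 0 else x.2.2.1 i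
/-- the positions enumerate the kept indices below `n` -/
def SDOK (n : ℕ) (x : SDT.den) : Prop :=
  (∀ i < n, x.2.1 i ≤ x.1) ∧ (∀ i < n, ∀ i' < n, x.2.1 i = x.2.1 i' → x.2.1 i ≠ 0 → i = i') ∧
    ∀ p < x.1, ∃ i < n, x.2.1 i = p + 1
/-- the full sample -/
def sdFull (n : ℕ) : SDT.den :=
  (n, (tabV .nat n (fun i => i + 1), (tabV .real n (fun _ => 1), tabV .nat n (fun _ => 1))))
/-- the empty sample -/
def sdEmpty : SDT.den := (0, (fun _ => 0), (fun _ => 0), fun _ => 0)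

/-! ## chains -/

def chD (Θ : ChT.den) : ℕ → ℕ
  | 0 => fopC (Θ.1 0)
  | r + 1 => fopR (Θ.1 r)

/-- the base preconditioner `λ⁻¹ (1 - Y Z1 Yᵀ) + Y Z2 Yᵀ`, `Y = (XᵀX)^q Ω` -/
noncomputable def basePre {m n k : ℕ} (X : Matrix (Fin m) (Fin n) ℝ) (l : ℝ) (q : ℕ)
    (Om : Matrix (Fin n) (Fin k) ℝ) (Z1 Z2 : Matrix (Fin k) (Fin k) ℝ) :
    Matrix (Fin n) (Fin n) ℝ :=
  let Y := (Xᵀ * X) ^ q * Om
  l⁻¹ • (1 - Y * Z1 * Yᵀ) + Y * Z2 * Yᵀ

/-- the chain described by chain data -/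
noncomputable def chainOf (Θ : ChT.den) : Chain where
  d := chD Θ
  X := fun r => toM _ _ (fopA (Θ.1 r))
  lam := Θ.2.1.1
  al := Θ.2.1.2
  be := Θ.2.2.2.1
  deg := Θ.2.2.1
  g0 := cheb (gram (toM (fopR (Θ.1 0)) (fopC (Θ.1 0)) (fopA (Θ.1 0))) (Θ.2.1.1 0))
    (basePre (toM (fopR (Θ.1 0)) (fopC (Θ.1 0)) (fopA (Θ.1 0))) (Θ.2.1.1 0) Θ.2.2.2.2.1.1
      (toM (fopC (Θ.1 0)) Θ.2.2.2.2.1.2 (cooA Θ.2.2.2.2.2.1))
      (toM Θ.2.2.2.2.1.2 Θ.2.2.2.2.1.2 Θ.2.2.2.2.2.2.1)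
      (toM Θ.2.2.2.2.1.2 Θ.2.2.2.2.1.2 Θ.2.2.2.2.2.2.2))
    (Θ.2.1.2 0) Θ.2.2.2.1 (Θ.2.2.1 0)

/-- well formed chain data of length `R` -/
def ChOK (Θ : ChT.den) (R : ℕ) : Prop :=
  (∀ r ≤ R, OpOK (Θ.1 r).2) ∧ (∀ r < R, fopC (Θ.1 (r + 1)) = fopR (Θ.1 r)) ∧
    CooOK (fopC (Θ.1 0)) Θ.2.2.2.2.1.2 Θ.2.2.2.2.2.1

/-- cost of one application of the solver number `r` -/
def chCost (C : ℕ) (Θ : ChT.den) : ℕ → ℕ
  | 0 => C * (Θ.2.2.1 0 + 2) * ((Θ.2.2.2.2.1.1 + 1) * (opSize (Θ.1 0).2 + 1) +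
      Θ.2.2.2.2.2.1.1 + (Θ.2.2.2.2.1.2 + 1) ^ 2)
  | r + 1 => C * (Θ.2.2.1 (r + 1) + 2) *
      (chCost C Θ r + opSize (Θ.1 r).2 + opSize (Θ.1 (r + 1)).2)

/-! ## multiplication programs -/

/-- `Mul` multiplies `m × m` matrices with cost at most `mm m` -/
def MulOK (Mul : Tm MatT) (mm : ℕ → ℕ) : Prop :=
  ∀ (m : ℕ) (ρ : Env), ρ.val .nat 0 = m →
    (∀ i < m, ∀ j < m, (Mul.eval ρ).1 i j =
      ∑ l ∈ range m, ρ.val MatT 0 i l * ρ.val MatT 1 l j) ∧ (Mul.eval ρ).2 ≤ mm m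

end A55
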