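import Pool.Agent.Lib_helper50.A55.Inv
import Pool.Agent.Lib_helper78.A55.LDefs

/-!
# MP_a55cb8: definitions for the correctness of the algorithm (helper50)
-/

open Matrix Finset

namespace A55

/-- a window of bits -/
def bw {W : ℕ} (w : Fin W → Bool) : ℕ → ℕ := fun t => if h : t < W then (w ⟨t, h⟩).toNat else 0

/-- matrix of a sample -/
abbrev smM (n : ℕ) (x : SDT.den) : Matrix (Fin x.1) (Fin n) ℝ := toM x.1 n (sdA x)

section

variable (c : Cst) (x : InT.den) (g : GT.den)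

/-- the matrix `E` -/
abbrev En : Matrix (Fin x.1.1) (Fin x.1.1) ℝ := toM x.1.1 x.1.1 (opA (gE g))
/-- the ridges -/
noncomputable def lamM (i : ℕ) : ℝ := gLam g 0 * ((pK c x : ℝ)⁻¹) ^ i
/-- the weights of the row sample of level `i` -/
noncomputable def sM (st : StT.den) (i : ℕ) : Fin x.1.1 → ℝ := fun p => sdW (st.2.1.1 i) p
/-- the weights of the column sample of level `i` -/
noncomputable def tM (st : StT.den) (i : ℕ) : Fin x.1.1 → ℝ := fun p => sdW (st.2.1.2 i) p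

/-- guarantees for the samples of the levels `≤ j` -/
structure LevM (j : ℕ) (st : StT.den) : Prop where
  vS : ∀ i ≤ j, Valid (diagonal (sM x st i)) (En x g) (lamM c x g i)
  vT : ∀ i ≤ j, Valid (diagonal (tM x st i)) (En x g)ᵀ (lamM c x g i)
  n1 : ∀ i ≤ j, Noise (diagonal (sM x st i)) (En x g) (diagonal (tM x st i)) (lamM c x g i) 2
  n2 : ∀ i < j, Noise (diagonal (sM x st i)) (En x g) (diagonal (tM x st (i + 1)))
    (lamM c x g i) 2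
  wS : ∀ i ≤ j, ∀ p, 0 ≤ sM x st i p ∧ sM x st i p ≤ 2 ^ pl c x
  wT : ∀ i ≤ j, ∀ p, 0 ≤ tM x st i p ∧ tM x st i p ≤ 2 ^ pl c x

/-- the accuracy of the solvers -/
noncomputable def dst : ℝ := (1 / 4) ^ (pl c x ^ 5)

end

/-- the preconditioner of the base of a chain -/
noncomputable def basePreOf (Θ : ChT.den) : Matrix (Fin (chD Θ 0)) (Fin (chD Θ 0)) ℝ :=
  basePre (toM (fopR (Θ.1 0)) (fopC (Θ.1 0)) (fopA (Θ.1 0))) (Θ.2.1.1 0) Θ.2.2.2.2.1.1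
      (toM (fopC (Θ.1 0)) Θ.2.2.2.2.1.2 (cooA Θ.2.2.2.2.2.1))
      (toM Θ.2.2.2.2.1.2 Θ.2.2.2.2.1.2 Θ.2.2.2.2.2.2.1)
      (toM Θ.2.2.2.2.1.2 Θ.2.2.2.2.1.2 Θ.2.2.2.2.2.2.2)

/-- the solver number `R` as an `n × n` matrix -/
noncomputable def Qm (n : ℕ) (Θ : ChT.den) (R : ℕ) : Matrix (Fin n) (Fin n) ℝ :=
  fun a b => if h : (a : ℕ) < chD Θ R ∧ (b : ℕ) < chD Θ R then
    (chainOf Θ).g R ⟨a, h.1⟩ ⟨b, h.2⟩ else 0

/-- the constants are in good order (`c1` is chosen last) -/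
structure Big (c : Cst) : Prop where
  c1 : 10 ^ 6 ≤ c.c1
  ct : 20 ≤ c.ct
  ch : 300 ≤ c.ch
  cB : 4 * c.ch + 4 * c.ct + 1000 ≤ c.cB
  big : ∀ l, c.c1 ≤ l → 1000 * (c.ct + c.cB + c.ch + 1000) * (Nat.log2 l + 1) ≤ l

/-- the guarantees for the global data without the ridges; `A xs = b`, `sg = σ_k²`,
`sn = σ_(n-1)²` -/
structure Setup1 {mm : ℕ → ℕ} (Φ : Lib mm) (c : Cst) (x : InT.den) (A0 : CooT.den) (g : GT.den)
    (A : Matrix (Fin x.1.1) (Fin x.1.1) ℝ) (xs : Fin x.1.1 → ℝ) (sg sn : ℝ) : Prop where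
  gok : GOK c x A0 g
  simple : ∀ i j, ((range A0.1).filter fun e => A0.2.1 e = i ∧ A0.2.2.1 e = j).card ≤ 1
  matA : toM x.1.1 x.1.1 (cooA A0) = A
  lowA : ∀ v, sn * sq v ≤ sq (A *ᵥ v)
  sn_pos : 0 < sn
  sg_pos : 0 < sg
  sg_le : sg ≤ (x.2.2.1 : ℝ) ^ 2 * sn
  /- `1 ≤ κ < k < n ≤ N ≤ n²`, `κ k ≤ N` -/
  h1 : 1 ≤ x.2.2.1
  h2 : x.2.2.1 < x.1.2
  h3 : x.1.2 < x.1.1
  h4 : x.1.1 ≤ x.2.1
  h5 : x.2.1 ≤ x.1.1 ^ 2
  h6 : x.2.2.1 * x.1.2 ≤ x.2.1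
  head : Head (En x g) (pkk c x) sg
  up : ∀ v, sq (En x g *ᵥ v) ≤ 4 ^ (pl c x ^ 3) * sg * sq v
  low : ∀ v, (∀ z, En x g *ᵥ z = 0 → z ⬝ᵥ v = 0) → sn * sq v ≤ sq (En x g *ᵥ v)
  bp : toV x.1.1 g.2.2.2 = En x g *ᵥ xs
  outx : ∀ v, A *ᵥ (toV x.1.1 (elimX Φ (gE g) g.2.1.2.1 g.2.1.2.2 g.2.2.1 v) - xs) =
    En x g *ᵥ toV x.1.1 v - toV x.1.1 g.2.2.2

/-- the guarantees for the global data -/
structure Setup {mm : ℕ → ℕ} (Φ : Lib mm) (c : Cst) (x : InT.den) (A0 : CooT.den) (g : GT.den)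
    (A : Matrix (Fin x.1.1) (Fin x.1.1) ℝ) (xs : Fin x.1.1 → ℝ) (sg sn : ℝ) : Prop extends
    Setup1 Φ c x A0 g A xs sg sn where
  lam_pos : 0 < gLam g 0
  lam_lo : ∀ v, 8 * sq (En x g *ᵥ v) ≤ gLam g 0 * sq v
  lam_hi : gLam g 0 ≤ 16 * (pl c x : ℝ) ^ 18 * 2 ^ pl c x * 4 ^ (pl c x ^ 3) * sg

/-- the output is correct -/
def OutOK (x : InT.den) (xs : Fin x.1.1 → ℝ) (v : VecT.den) : Prop :=
  sq (toV x.1.1 v - xs) ≤ (1 / 4) ^ x.2.2.2 * sq xs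

/-! ## sizes -/

section

variable (c : Cst) (x : InT.den) (A0 : CooT.den) (g : GT.den) (sg : ℝ)

/-- number of entries of the matrix at a position -/
def cnt (i j : Fin x.1.1) : ℕ :=
  ((range A0.1).filter fun e => A0.2.1 e = i ∧ A0.2.2.1 e = j).card

/-- `min 1 (sg / λ)` -/
noncomputable def eta (l : ℝ) : ℝ := min 1 (sg / l)

/-- bounds for the operators of level `i`; `cs` is an exponent -/
structure SizeM (cs : ℕ) (i : ℕ) (st : StT.den) : Prop where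
  szD : (opSize (st.2.2.1.1 i) : ℝ) ≤ (pl c x : ℝ) ^ cs * (x.1.2 ^ 2 + eta sg (lamM c x g i) * x.2.1)
  szF : 1 ≤ i →
    (opSize (st.2.2.1.2 i) : ℝ) ≤ (pl c x : ℝ) ^ cs * (x.1.2 ^ 2 + eta sg (lamM c x g i) * x.2.1)
  heavy : (pK c x : ℝ) ^ pbb c x * sg ≤ lamM c x g i →
    opHeavy (st.2.2.1.1 i) (st.2.1.1 i).2.2.2 (st.2.1.2 i).2.2.2 (phcap c x)
  rest : (opRest (st.2.2.1.1 i) (st.2.1.1 i).2.2.2 (st.2.1.2 i).2.2.2 : ℝ) ≤
    (pl c x : ℝ) ^ cs * (x.1.2 + (eta sg (lamM c x g i) + (1 / 4) ^ ph c x) * x.2.1)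

/-- What the row sample of level `i` gives for the next level: the kept positions have weights
`≠ 0`; bounds for the number of kept rows, for their rows of `U`, and for their entries in the
columns of the next column sample. -/
def NextOK (cs : ℕ) (i : ℕ) (st : StT.den) : Prop :=
  (∀ p : Fin x.1.1, (st.2.1.1 i).2.1 p ≠ 0 → sM x st i p ≠ 0) ∧
  ∑ p, (if sM x st i p = 0 then (0 : ℝ) else 1) ≤
    (pl c x : ℝ) ^ (cs - 100) * (x.1.2 ^ 2 + eta sg (lamM c x g (i + 1)) * x.2.1) ∧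
  ∑ p : Fin x.1.1, (if sM x st i p = 0 then (0 : ℝ) else
      ((min (pl c x * rowCnt A0 p) (pm1 c x) : ℕ) : ℝ)) ≤
    (pl c x : ℝ) ^ (cs - 100) * (x.1.2 ^ 2 + eta sg (lamM c x g (i + 1)) * x.2.1) ∧
  ∑ p, (if sM x st i p = 0 then (0 : ℝ) else ∑ q, (cnt x A0 p q : ℝ) *
      min 1 (8 * (pl c x : ℝ) ^ 118 * rho (En x g)ᵀ (lamM c x g (i + 1)) q +
        5 * (pl c x : ℝ) ^ 18 * (1 / 4) ^ pl c x)) ≤
    (pl c x : ℝ) ^ 285 * (x.1.2 ^ 2 + eta sg (lamM c x g (i + 1)) * x.2.1)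

end

/-! ## the state predicates -/

section

variable {mm : ℕ → ℕ} (Φ : Lib mm) (c : Cst) (x : InT.den) (A0 : CooT.den) (g : GT.den)
  (xs : Fin x.1.1 → ℝ) (sg : ℝ) (cs : ℕ)

/-- the samples are good up to level `j` -/
structure GoodS (j : ℕ) (st : StT.den) : Prop where
  lev : Lev Φ g j st
  levM : LevM c x g j st
  kill : KillOK (diagonal (sM x st j)) (En x g) (lamM c x g j) (lamM c x g (j + 1))
    (((pl c x : ℝ) ^ 10) ^ 10) (((pl c x : ℝ) ^ 10)⁻¹ ^ 5)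
  next : NextOK c x A0 g sg cs j st
  size : ∀ i ≤ j, SizeM c x g sg cs i st

/-- before stage `j` -/
structure Good0 (j : ℕ) (st : StT.den) : Prop where
  out : st.1.1 ≠ 0 → OutOK x xs st.1.2
  main : st.1.1 = 0 → GoodS Φ c x A0 g sg cs j st ∧ (j = 0 ∨ pl c x * sg < lamM c x g j)

/-- after step 0 of stage `j` -/
structure Good1 (j : ℕ) (st : StT.den) : Prop where
  out : st.1.1 ≠ 0 → OutOK x xs st.1.2
  main : st.1.1 = 0 → GoodS Φ c x A0 g sg cs j st ∧ pl c x * pK c x * sg < lamM c x g j ∧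
    (∃ w, st.2.2.2 = theta Φ g j st w) ∧
    IsSol (gram (En x g) (lamM c x g j)) (Qm x.1.1 st.2.2.2 (topIx g j)) (dst c x) ∧
    IsSol (gram (En x g)ᵀ (lamM c x g (j + 1))) (Qm x.1.1 st.2.2.2 (topIx g j + 1)) (dst c x) ∧
    IsSol (gram (En x g) (lamM c x g (j + 1))) (Qm x.1.1 st.2.2.2 (topIx g j + 2)) (dst c x)

end

/-! ## the global Markov chain -/

section

variable {mm : ℕ → ℕ} (Φ : Lib mm) (c : Cst) (x : InT.den) (A0 : CooT.den) (b : VecT.den)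

/-- the data before the first step -/
noncomputable def gl0 : GT.den :=
  ((parN c x, (parQ c x, fun _ => 0)), ((OpT.default, (CooT.default, CooT.default)),
    (b, fun _ => 0)))
/-- the sketch `T0` -/
noncomputable def gl1 (g : GT.den) (w : ℕ → ℕ) : GT.den :=
  (g.1, ((g.2.1.1, (Φ.sk (x.1.1, (pl c x, (pb1 c x, w))), g.2.1.2.2)), g.2.2))
/-- the sketch `S0` and the elimination -/
noncomputable def gl2 (g : GT.den) (w : ℕ → ℕ) : GT.den :=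
  let S0 := Φ.sk (x.1.1, (pl c x, (pb2 c x, w)))
  let E := elimE Φ x.1.1 (pl c x) (ps c x) (pm1 c x) (pm2 c x) A0 g.2.1.2.1 S0
  (g.1, ((E, (g.2.1.2.1, S0)), (g.2.2.1, elimB Φ E S0 g.2.2.1)))
/-- the ridges -/
noncomputable def gl3 (g : GT.den) (w : ℕ → ℕ) : GT.den :=
  ((g.1.1, (g.1.2.1, tabV .real (pl c x ^ 3 + 2) (fun i =>
    topLam Φ (pM c x) (gE g) (Φ.sgns ((pM c x, x.1.1), w)) * ((pK c x : ℝ)⁻¹) ^ i))), g.2)

/-- the steps of the algorithm -/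
noncomputable def mstep (i : ℕ) (X : GT.den × StT.den) (w : ℕ → ℕ) : GT.den × StT.den :=
  if i = 0 then (gl1 Φ c x X.1 w, X.2)
  else if i = 1 then (gl2 Φ c x A0 X.1 w, X.2)
  else if i = 2 then (gl3 Φ c x X.1 w, start Φ (gl3 Φ c x X.1 w))
  else (X.1, step Φ X.1 (i - 3) X.2 w)

/-- the state after `i` steps -/
noncomputable def mrun (r : ℕ → ℕ) (i : ℕ) : GT.den × StT.den :=
  Nat.rec (gl0 c x b, StT.default) (fun i X => mstep Φ c x A0 i X (win (pW c x) r i)) i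

end

end A55
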